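import Pool.Agent.BGG.GCs
import Pool.Agent.MT.Defs

/-!
G-II: the hypothesis `EH` of part A from `EHs` and `BVs`.
-/

namespace Pool.Agent.BGG

open Finset Filter

/-- proper prime powers -/
noncomputable def ppw (n : ℕ) : ℝ := ArithmeticFunction.vonMangoldt n - MT.th n

lemma th_eq (n : ℕ) : MT.th n = if n.Prime then ArithmeticFunction.vonMangoldt n else 0 := by
  unfold MT.th
  split_ifs with h
  · rw [ArithmeticFunction.vonMangoldt_apply_prime h]
  · rfl

lemma ppw_eq (n : ℕ) : ppw n = if n.Prime then 0 else ArithmeticFunction.vonMangoldt n := by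
  unfold ppw
  rw [th_eq]
  split_ifs <;> simp

lemma ppw_nonneg (n : ℕ) : 0 ≤ ppw n := by
  rw [ppw_eq]
  split_ifs
  · exact le_rfl
  · exact ArithmeticFunction.vonMangoldt_nonneg

lemma ppw_le (n : ℕ) : ppw n ≤ Real.log n := by
  rw [ppw_eq]
  split_ifs
  · exact Real.log_natCast_nonneg n
  · exact ArithmeticFunction.vonMangoldt_le_log

lemma ppw_sum (X : ℕ) (hX : 1 ≤ X) : ∑ n ∈ Icc 1 X, ppw n ≤ 2 * Real.sqrt X * Real.log X := by
  have h := Chebyshev.psi_sub_theta_le (x := (X : ℝ)) (by exact_mod_cast hX)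
  refine le_trans (le_of_eq ?_) h
  rw [Chebyshev.psi_sub_theta_eq_sum_not_prime, Nat.floor_natCast, Finset.sum_filter]
  apply Finset.sum_congr
  · ext n
    rw [Finset.mem_Icc, Finset.mem_Ioc]
    omega
  · intro n _
    rw [ppw_eq]
    by_cases hp : n.Prime <;> simp [hp]

lemma ppw_sum_sq (X : ℕ) (hX : 1 ≤ X) :
    ∑ n ∈ Icc 1 X, ppw n ^ 2 ≤ 2 * Real.sqrt X * Real.log X ^ 2 := by
  have hL : 0 ≤ Real.log X := Real.log_natCast_nonneg X
  calc ∑ n ∈ Icc 1 X, ppw n ^ 2 ≤ ∑ n ∈ Icc 1 X, Real.log X * ppw n := by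
        apply Finset.sum_le_sum
        intro n hn
        rw [Finset.mem_Icc] at hn
        rw [sq]
        apply mul_le_mul_of_nonneg_right _ (ppw_nonneg n)
        refine (ppw_le n).trans (Real.log_le_log (by exact_mod_cast hn.1) (by exact_mod_cast hn.2))
    _ = Real.log X * ∑ n ∈ Icc 1 X, ppw n := by rw [Finset.mul_sum]
    _ ≤ Real.log X * (2 * Real.sqrt X * Real.log X) := by
        gcongr
        exact ppw_sum X hX
    _ = _ := by ring

lemma tau_sum (j X : ℕ) : ∑ n ∈ Icc 1 X, (n.divisors.card : ℝ) ^ j ≤ X * (1 + Real.log X) ^ (2 ^ j) := by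
  calc ∑ n ∈ Icc 1 X, (n.divisors.card : ℝ) ^ j
      ≤ ∑ n ∈ Icc 1 X, (X : ℝ) * ((n.divisors.card : ℝ) ^ j / n) := by
        apply Finset.sum_le_sum
        intro n hn
        rw [Finset.mem_Icc] at hn
        have hn0 : (0:ℝ) < n := by exact_mod_cast hn.1
        have hnX : (n:ℝ) ≤ X := by exact_mod_cast hn.2
        rw [← mul_div_assoc, le_div_iff₀ hn0, mul_comm]
        gcongr
    _ = X * ∑ n ∈ Icc 1 X, ((n.divisors.card : ℝ) ^ j / n) := by rw [Finset.mul_sum]
    _ ≤ _ := by
        gcongr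
        exact aux_sum_tau_pow j X

lemma prod_le_sum_pow {k : ℕ} (hk : 1 ≤ k) (a : Fin k → ℝ) (ha : ∀ i, 0 ≤ a i) :
    ∏ i, a i ≤ ∑ i, a i ^ k := by
  have : NeZero k := ⟨by omega⟩
  obtain ⟨i0, _, hi0⟩ := Finset.exists_max_image Finset.univ a ⟨(0 : Fin k), Finset.mem_univ _⟩
  calc ∏ i, a i ≤ ∏ _i : Fin k, a i0 :=
        Finset.prod_le_prod (fun i _ => ha i) (fun i hi => hi0 i hi)
    _ = a i0 ^ k := by rw [Finset.prod_const, Finset.card_univ, Fintype.card_fin]
    _ ≤ _ := Finset.single_le_sum (f := fun i => a i ^ k) (fun i _ => pow_nonneg (ha i) k) (Finset.mem_univ i0)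

/-- second moment of the number of pairs -/
lemma tau_prod_sum {k : ℕ} (hk : 1 ≤ k) (h : Fin k → ℕ) (N X : ℕ) (hN : 1 ≤ N)
    (hX : ∀ i, 2 * N + h i ≤ X + 1) :
    ∑ n ∈ Ico N (2 * N), (∏ i, ((n + h i).divisors.card : ℝ) ^ 2) ^ 2
      ≤ k * (X * (1 + Real.log X) ^ (2 ^ (4 * k))) := by
  calc ∑ n ∈ Ico N (2 * N), (∏ i, ((n + h i).divisors.card : ℝ) ^ 2) ^ 2
      ≤ ∑ n ∈ Ico N (2 * N), ∑ i, ((n + h i).divisors.card : ℝ) ^ (4 * k) := by
        apply Finset.sum_le_sum
        intro n _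
        rw [← Finset.prod_pow]
        calc ∏ i, (((n + h i).divisors.card : ℝ) ^ 2) ^ 2
            ≤ ∑ i, ((((n + h i).divisors.card : ℝ) ^ 2) ^ 2) ^ k :=
              prod_le_sum_pow hk _ (fun i => by positivity)
          _ = _ := by
              apply Finset.sum_congr rfl
              intro i _
              rw [← pow_mul, ← pow_mul]
              congr 1
              ring
    _ = ∑ i, ∑ n ∈ Ico N (2 * N), ((n + h i).divisors.card : ℝ) ^ (4 * k) := Finset.sum_comm
    _ ≤ ∑ _i : Fin k, (X * (1 + Real.log X) ^ (2 ^ (4 * k))) := by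
        apply Finset.sum_le_sum
        intro i _
        refine le_trans ?_ (tau_sum (4 * k) X)
        rw [← Finset.sum_image (s := Ico N (2 * N)) (g := fun n => n + h i)
          (f := fun n => (n.divisors.card : ℝ) ^ (4 * k)) (by intro a _ b _ hab; simpa using hab)]
        apply Finset.sum_le_sum_of_subset_of_nonneg
        · intro n hn
          rw [Finset.mem_image] at hn
          obtain ⟨a, ha, rfl⟩ := hn
          rw [Finset.mem_Ico] at ha
          rw [Finset.mem_Icc]
          have := hX i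
          omega
        · intro n _ _; positivity
    _ = _ := by rw [Finset.sum_const, Finset.card_univ, Fintype.card_fin, nsmul_eq_mul]

/-! ### pairs -/

/-- the vector of least common multiples -/
def lcmv {k : ℕ} (d e : Fin k → ℕ) : Fin k → ℕ := fun i => (d i).lcm (e i)

lemma sqf_lcm {a b : ℕ} (ha : Squarefree a) (hb : Squarefree b) : Squarefree (a.lcm b) := by
  rw [Nat.squarefree_iff_factorization_le_one (Nat.lcm_ne_zero ha.ne_zero hb.ne_zero)]
  intro p
  rw [Nat.factorization_lcm ha.ne_zero hb.ne_zero]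
  have h1 := (Nat.squarefree_iff_factorization_le_one ha.ne_zero).1 ha p
  have h2 := (Nat.squarefree_iff_factorization_le_one hb.ne_zero).1 hb p
  simpa using ⟨h1, h2⟩

lemma sqf_prod_cop {k : ℕ} {d : Fin k → ℕ} (h : Squarefree (∏ i, d i)) {i j : Fin k} (hij : i ≠ j) :
    Nat.Coprime (d i) (d j) := by
  classical
  have h1 : d i * d j ∣ ∏ i, d i := by
    rw [← Finset.mul_prod_erase Finset.univ d (Finset.mem_univ i)]
    apply Nat.mul_dvd_mul_left
    exact Finset.dvd_prod_of_mem d (Finset.mem_erase.2 ⟨hij.symm, Finset.mem_univ j⟩)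
  exact (Nat.squarefree_mul_iff.1 (h.squarefree_of_dvd h1)).1

lemma sqf_prod_one {k : ℕ} {d : Fin k → ℕ} (h : Squarefree (∏ i, d i)) (i : Fin k) :
    Squarefree (d i) :=
  h.squarefree_of_dvd (Finset.dvd_prod_of_mem d (Finset.mem_univ i))

lemma cop_prod_one {k : ℕ} {d : Fin k → ℕ} {W : ℕ} (h : (∏ i, d i).Coprime W) (i : Fin k) :
    (d i).Coprime W :=
  Nat.Coprime.coprime_dvd_left (Finset.dvd_prod_of_mem d (Finset.mem_univ i)) h

/-- `OK` pairs give admissible vectors -/
lemma vecOK_of_OK {k : ℕ} {h : Fin k → ℕ} {D : ℕ} (hL : MT.Large h D) {m : Fin k}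
    {d e : Fin k → ℕ} (hok : MT.OK (primorial D) m d e) : VecOK h m (primorial D) (lcmv d e) := by
  obtain ⟨hdm, hem, hd, he, hdW, heW, hde⟩ := hok
  refine ⟨?_, ?_, ?_, ?_, ?_⟩
  · simp [lcmv, hdm, hem]
  · intro i; exact sqf_lcm (sqf_prod_one hd i) (sqf_prod_one he i)
  · intro i j hij
    have h1 : ((d i).lcm (e i)).Coprime (d j) :=
      Nat.Coprime.coprime_dvd_left (Nat.lcm_dvd_mul _ _)
        (Nat.Coprime.mul_left (sqf_prod_cop hd hij) (hde j i hij.symm).symm)
    have h2 : ((d i).lcm (e i)).Coprime (e j) :=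
      Nat.Coprime.coprime_dvd_left (Nat.lcm_dvd_mul _ _)
        (Nat.Coprime.mul_left (hde i j hij) (sqf_prod_cop he hij))
    exact Nat.Coprime.coprime_dvd_right (Nat.lcm_dvd_mul _ _) (Nat.Coprime.mul_right h1 h2)
  · intro i
    exact Nat.Coprime.coprime_dvd_left (Nat.lcm_dvd_mul _ _)
      (Nat.Coprime.mul_left (cop_prod_one hdW i) (cop_prod_one heW i))
  · intro i hi p hp hpi hdiff
    have hpW : ¬ p ∣ primorial D := by
      intro hpW
      have h1 : (lcmv d e i).Coprime (primorial D) :=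
        Nat.Coprime.coprime_dvd_left (Nat.lcm_dvd_mul _ _)
          (Nat.Coprime.mul_left (cop_prod_one hdW i) (cop_prod_one heW i))
      have := Nat.dvd_gcd hpi hpW
      rw [h1] at this
      exact hp.one_lt.ne' (Nat.dvd_one.1 this)
    have hpD : D < p := by
      by_contra hle
      exact hpW (hp.dvd_primorial_iff.2 (by omega))
    -- n = (p - 1) * h m
    have h1 : p ∣ (p - 1) * h m + h m := by
      have : (p - 1) * h m + h m = p * h m := by
        have h2 := hp.one_lt
        calc (p - 1) * h m + h m = (p - 1 + 1) * h m := by ring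
          _ = p * h m := by rw [Nat.sub_add_cancel h2.le]
      rw [this]; exact dvd_mul_right _ _
    apply hL p ((p - 1) * h m) m i hp hpD hi.symm h1
    rw [← Int.natCast_dvd_natCast] at h1 ⊢
    have := dvd_sub h1 hdiff
    push_cast at this ⊢
    have e1 : ((p - 1 : ℕ) : ℤ) * (h m : ℤ) + (h m : ℤ) - ((h m : ℤ) - (h i : ℤ))
        = ((p - 1 : ℕ) : ℤ) * (h m : ℤ) + (h i : ℤ) := by ring
    rw [e1] at this
    exact this

lemma totient_prod_cop {k : ℕ} (q : Fin k → ℕ) (hc : ∀ i j, i ≠ j → Nat.Coprime (q i) (q j)) :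
    (∏ i, q i).totient = ∏ i, (q i).totient := by
  classical
  have key : ∀ s : Finset (Fin k), (∏ i ∈ s, q i).totient = ∏ i ∈ s, (q i).totient := by
    intro s
    induction s using Finset.induction_on with
    | empty => simp
    | insert a s ha ih =>
      rw [Finset.prod_insert ha, Finset.prod_insert ha, Nat.totient_mul, ih]
      apply Nat.Coprime.prod_right
      intro i hi
      apply hc
      rintro rfl
      exact ha hi
  exact key Finset.univ

lemma card_divisors_sqf {n : ℕ} (hn : Squarefree n) : n.divisors.card = 2 ^ n.primeFactors.card := by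
  rw [Nat.card_divisors hn.ne_zero, ← Finset.prod_const]
  apply Finset.prod_congr rfl
  intro p hp
  have h1 := (Nat.squarefree_iff_factorization_le_one hn.ne_zero).1 hn p
  have h2 := (Nat.prime_of_mem_primeFactors hp).factorization_pos_of_dvd hn.ne_zero
    (Nat.dvd_of_mem_primeFactors hp)
  omega

lemma prod_tau_eq {k : ℕ} {h : Fin k → ℕ} {m : Fin k} {W : ℕ} {q : Fin k → ℕ}
    (hq : VecOK h m W q) : ∏ i, (q i).divisors.card = 2 ^ (∏ i, q i).primeFactors.card := by
  classical
  rw [Finset.prod_congr rfl (fun i _ => card_divisors_sqf (hq.sqf i)), Finset.prod_pow_eq_pow_sum]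
  congr 1
  have h1 : (∏ i, q i).primeFactors = Finset.univ.biUnion (fun i => (q i).primeFactors) := by
    ext p
    rw [vec_primeFactors hq, Finset.mem_biUnion]
    constructor
    · rintro ⟨hp, i, hi⟩
      exact ⟨i, Finset.mem_univ i, Nat.mem_primeFactors.2 ⟨hp, hi, (hq.sqf i).ne_zero⟩⟩
    · rintro ⟨i, _, hi⟩
      exact ⟨Nat.prime_of_mem_primeFactors hi, i, Nat.dvd_of_mem_primeFactors hi⟩
  rw [h1, Finset.card_biUnion]
  intro i _ j _ hij
  exact (hq.cop i j hij).disjoint_primeFactors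

lemma fiber_card {k : ℕ} {h : Fin k → ℕ} {m : Fin k} {W : ℕ} {q : Fin k → ℕ}
    (hq : VecOK h m W q) (S : Finset ((Fin k → ℕ) × (Fin k → ℕ))) :
    (S.filter (fun p => lcmv p.1 p.2 = q)).card ≤ 4 ^ (∏ i, q i).primeFactors.card := by
  classical
  set F := Fintype.piFinset (fun i => (q i).divisors) with hF
  have hFc : F.card = 2 ^ (∏ i, q i).primeFactors.card := by
    rw [hF, Fintype.card_piFinset, prod_tau_eq hq]
  have hsub : S.filter (fun p => lcmv p.1 p.2 = q) ⊆ F ×ˢ F := by
    intro p hp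
    rw [Finset.mem_filter] at hp
    rw [Finset.mem_product, hF, Fintype.mem_piFinset, Fintype.mem_piFinset]
    constructor
    · intro i
      rw [Nat.mem_divisors, ← hp.2]
      refine ⟨Nat.dvd_lcm_left _ _, ?_⟩
      rw [hp.2]
      exact (hq.sqf i).ne_zero
    · intro i
      rw [Nat.mem_divisors, ← hp.2]
      refine ⟨Nat.dvd_lcm_right _ _, ?_⟩
      rw [hp.2]
      exact (hq.sqf i).ne_zero
  calc _ ≤ (F ×ˢ F).card := Finset.card_le_card hsub
    _ = 4 ^ (∏ i, q i).primeFactors.card := by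
      rw [Finset.card_product, hFc, ← mul_pow]; norm_num

open Classical in
/-- `Del` in terms of `VecErr` and the prime powers -/
lemma Del_le {k : ℕ} {h : Fin k → ℕ} {D : ℕ} (hL : MT.Large h D) {m : Fin k} (b N : ℕ) (hN : 1 ≤ N)
    {d e : Fin k → ℕ} (hok : MT.OK (primorial D) m d e) :
    MT.Del h (primorial D) b N m d e ≤
      |VecErr h m (primorial D) ((b : ℤ) + h m) ((N + h m - 1 : ℕ) : ℝ) ((2 * N + h m - 1 : ℕ) : ℝ) (lcmv d e)|
      + ∑ n ∈ Ico N (2 * N), (if (∀ i, i ≠ m → d i ∣ n + h i ∧ e i ∣ n + h i) then ppw (n + h m) else 0) := by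
  have hv := vecOK_of_OK hL hok
  set W := primorial D with hW
  unfold MT.Del MT.rng
  set S : Finset ℕ := ((Ico N (2 * N)).filter (fun n => n ≡ b [MOD W])).filter
    (fun n => ∀ i, i ≠ m → d i ∣ n + h i ∧ e i ∣ n + h i) with hS
  have htot : (N : ℝ) / (W.totient * ∏ i, (((d i).lcm (e i)).totient : ℝ))
      = (((2 * N + h m - 1 : ℕ) : ℝ) - ((N + h m - 1 : ℕ) : ℝ)) / ((W * ∏ i, lcmv d e i).totient : ℝ) := by
    have h1 : (W * ∏ i, lcmv d e i).totient = W.totient * ∏ i, ((d i).lcm (e i)).totient := by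
      rw [Nat.totient_mul, totient_prod_cop _ hv.cop]
      · rfl
      · apply Nat.Coprime.prod_right
        intro i _
        exact (hv.copW i).symm
    rw [h1]
    congr 1
    · rw [Nat.cast_sub (by omega), Nat.cast_sub (by omega)]
      push_cast; ring
    · push_cast; rfl
  have hsum : ∑ n ∈ Icc 1 ⌊((2 * N + h m - 1 : ℕ) : ℝ)⌋₊,
      (if ((N + h m - 1 : ℕ) : ℝ) < (n : ℝ) ∧ (W : ℤ) ∣ (n : ℤ) - ((b : ℤ) + h m) ∧
        (∀ i, i ≠ m → ((lcmv d e i : ℕ) : ℤ) ∣ (n : ℤ) - ((h m : ℤ) - (h i : ℤ)))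
        then ArithmeticFunction.vonMangoldt n else 0)
      = ∑ n ∈ S, ArithmeticFunction.vonMangoldt (n + h m) := by
    rw [Nat.floor_natCast, ← Finset.sum_filter]
    symm
    apply Finset.sum_bij (fun n _ => n + h m)
    · intro n hn
      rw [hS, Finset.mem_filter, Finset.mem_filter, Finset.mem_Ico] at hn
      obtain ⟨⟨⟨h1, h2⟩, h3⟩, h4⟩ := hn
      rw [Finset.mem_filter, Finset.mem_Icc]
      refine ⟨⟨by omega, by omega⟩, by exact_mod_cast (show N + h m - 1 < n + h m by omega), ?_, ?_⟩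
      · push_cast
        have h5 := (Int.natCast_modEq_iff.2 h3).symm.dvd
        have e1 : (n : ℤ) + (h m : ℤ) - ((b : ℤ) + (h m : ℤ)) = (n : ℤ) - b := by ring
        rw [e1]; exact h5
      · intro i hi
        have h5 := Nat.lcm_dvd (h4 i hi).1 (h4 i hi).2
        have h6 : ((lcmv d e i : ℕ) : ℤ) ∣ ((n + h i : ℕ) : ℤ) := Int.natCast_dvd_natCast.2 h5
        have e1 : ((n + h m : ℕ) : ℤ) - ((h m : ℤ) - (h i : ℤ)) = ((n + h i : ℕ) : ℤ) := by
          push_cast; ring
        rw [e1]; exact h6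
    · intro a _ b _ hab
      exact Nat.add_right_cancel hab
    · intro n hn
      rw [Finset.mem_filter, Finset.mem_Icc] at hn
      obtain ⟨⟨h1, h2⟩, h3, h4, h5⟩ := hn
      have h3' : N + h m - 1 < n := by exact_mod_cast h3
      refine ⟨n - h m, ?_, by omega⟩
      have hn' : n - h m + h m = n := by omega
      rw [hS, Finset.mem_filter, Finset.mem_filter, Finset.mem_Ico]
      refine ⟨⟨⟨by omega, by omega⟩, ?_⟩, ?_⟩
      · rw [← Int.natCast_modEq_iff]
        apply Int.ModEq.symm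
        rw [Int.modEq_iff_dvd]
        have e1 : ((n - h m : ℕ) : ℤ) - b = (n : ℤ) - ((b : ℤ) + h m) := by
          have : ((n - h m : ℕ) : ℤ) = (n : ℤ) - h m := by
            rw [Nat.cast_sub (by omega)]
          rw [this]; ring
        rw [e1]; exact h4
      · intro i hi
        have h6 := h5 i hi
        have e1 : (n : ℤ) - ((h m : ℤ) - (h i : ℤ)) = ((n - h m + h i : ℕ) : ℤ) := by
          push_cast
          rw [Nat.cast_sub (by omega)]
          ring
        rw [e1] at h6
        have h7 := Int.natCast_dvd_natCast.1 h6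
        exact ⟨(Nat.dvd_lcm_left _ _).trans h7, (Nat.dvd_lcm_right _ _).trans h7⟩
    · intro n _; rfl
  have hth : ∑ n ∈ S, MT.th (n + h m)
      = ∑ n ∈ S, ArithmeticFunction.vonMangoldt (n + h m) - ∑ n ∈ S, ppw (n + h m) := by
    rw [← Finset.sum_sub_distrib]
    apply Finset.sum_congr rfl
    intro n _
    unfold ppw; ring
  have hpp : ∑ n ∈ S, ppw (n + h m) ≤ ∑ n ∈ Ico N (2 * N),
      (if (∀ i, i ≠ m → d i ∣ n + h i ∧ e i ∣ n + h i) then ppw (n + h m) else 0) := by
    rw [← Finset.sum_filter]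
    apply Finset.sum_le_sum_of_subset_of_nonneg
    · intro n hn
      rw [hS, Finset.mem_filter, Finset.mem_filter] at hn
      rw [Finset.mem_filter]
      exact ⟨hn.1.1, hn.2⟩
    · intro n _ _; exact ppw_nonneg _
  have hpp0 : 0 ≤ ∑ n ∈ S, ppw (n + h m) := Finset.sum_nonneg (fun n _ => ppw_nonneg _)
  rw [htot, hth]
  unfold VecErr
  rw [hsum]
  set T := ∑ n ∈ S, ArithmeticFunction.vonMangoldt (n + h m)
  set P := ∑ n ∈ S, ppw (n + h m)
  set Z := (((2 * N + h m - 1 : ℕ) : ℝ) - ((N + h m - 1 : ℕ) : ℝ)) / ((W * ∏ i, lcmv d e i).totient : ℝ)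
  calc |T - P - Z| = |(T - Z) - P| := by congr 1; ring
    _ ≤ |T - Z| + |P| := abs_sub _ _
    _ = |T - Z| + P := by rw [abs_of_nonneg hpp0]
    _ ≤ _ := by gcongr

/-- the prime power part of the box error -/
lemma pp_part {k : ℕ} (h : Fin k → ℕ) (m : Fin k) (N X : ℕ) (hN : 1 ≤ N)
    (hX : ∀ i, 2 * N + h i ≤ X + 1) (S : Finset ((Fin k → ℕ) × (Fin k → ℕ)))
    (hS : ∀ p ∈ S, p.1 m = 1 ∧ p.2 m = 1) :
    ∑ p ∈ S, ∑ n ∈ Ico N (2 * N),
        (if (∀ i, i ≠ m → p.1 i ∣ n + h i ∧ p.2 i ∣ n + h i) then ppw (n + h m) else 0)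
      ≤ Real.sqrt (2 * Real.sqrt X * Real.log X ^ 2)
        * Real.sqrt (k * (X * (1 + Real.log X) ^ (2 ^ (4 * k)))) := by
  classical
  have hk : 1 ≤ k := by have := m.2; omega
  rw [Finset.sum_comm]
  have hX1 : 1 ≤ X := by have := hX m; omega
  calc ∑ n ∈ Ico N (2 * N), ∑ p ∈ S,
        (if (∀ i, i ≠ m → p.1 i ∣ n + h i ∧ p.2 i ∣ n + h i) then ppw (n + h m) else 0)
      ≤ ∑ n ∈ Ico N (2 * N), ppw (n + h m) * ∏ i, ((n + h i).divisors.card : ℝ) ^ 2 := by
        apply Finset.sum_le_sum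
        intro n hn
        rw [Finset.mem_Ico] at hn
        rw [← Finset.sum_filter, Finset.sum_const, nsmul_eq_mul, mul_comm]
        apply mul_le_mul_of_nonneg_left _ (ppw_nonneg _)
        set F := Fintype.piFinset (fun i => (n + h i).divisors) with hF
        have hsub : S.filter (fun p => ∀ i, i ≠ m → p.1 i ∣ n + h i ∧ p.2 i ∣ n + h i) ⊆ F ×ˢ F := by
          intro p hp
          rw [Finset.mem_filter] at hp
          rw [Finset.mem_product, hF, Fintype.mem_piFinset, Fintype.mem_piFinset]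
          constructor
          · intro i
            rw [Nat.mem_divisors]
            refine ⟨?_, by omega⟩
            by_cases hi : i = m
            · rw [hi, (hS p hp.1).1]; exact one_dvd _
            · exact (hp.2 i hi).1
          · intro i
            rw [Nat.mem_divisors]
            refine ⟨?_, by omega⟩
            by_cases hi : i = m
            · rw [hi, (hS p hp.1).2]; exact one_dvd _
            · exact (hp.2 i hi).2
        have h1 := Finset.card_le_card hsub
        rw [Finset.card_product, hF, Fintype.card_piFinset] at h1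
        calc ((S.filter (fun p => ∀ i, i ≠ m → p.1 i ∣ n + h i ∧ p.2 i ∣ n + h i)).card : ℝ)
            ≤ (((∏ i, (n + h i).divisors.card) * ∏ i, (n + h i).divisors.card : ℕ) : ℝ) := by
              exact_mod_cast h1
          _ = _ := by
              push_cast
              rw [← Finset.prod_mul_distrib]
              apply Finset.prod_congr rfl
              intro i _; ring
    _ ≤ Real.sqrt (∑ n ∈ Ico N (2 * N), ppw (n + h m) ^ 2)
        * Real.sqrt (∑ n ∈ Ico N (2 * N), (∏ i, ((n + h i).divisors.card : ℝ) ^ 2) ^ 2) :=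
        Real.sum_mul_le_sqrt_mul_sqrt _ _ _
    _ ≤ _ := by
        gcongr
        · refine le_trans ?_ (ppw_sum_sq X hX1)
          rw [← Finset.sum_image (s := Ico N (2 * N)) (g := fun n => n + h m)
            (f := fun n => ppw n ^ 2) (by intro a _ b _ hab; simpa using hab)]
          apply Finset.sum_le_sum_of_subset_of_nonneg
          · intro n hn
            rw [Finset.mem_image] at hn
            obtain ⟨a, ha, rfl⟩ := hn
            rw [Finset.mem_Ico] at ha
            rw [Finset.mem_Icc]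
            have := hX m
            omega
          · intro n _ _; positivity
        · exact tau_prod_sum hk h N X hN hX

end Pool.Agent.BGG
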