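import Pool.Agent.BGG.GAux

/-!
Section 7, step (1): averaging over colourings of the primes.
-/

namespace Pool.Agent.BGG

open Finset

lemma col_avg {ι : Type*} (P : Finset ℕ) {k : ℕ} (hk : 1 ≤ k) (T : Finset ι) (S : ι → Finset ℕ)
    (as : ι → ℕ → Fin k) (w : ι → ℝ) (hS : ∀ t ∈ T, S t ⊆ P) :
    ∃ c : ℕ → Fin k, ∑ t ∈ T, w t ≤
      ∑ t ∈ T, if (∀ p ∈ S t, c p = as t p) then (k : ℝ) ^ (S t).card * w t else 0 := by
  classical
  haveI : NeZero k := ⟨by omega⟩
  -- all functions on `P`
  have hcount : ∀ t ∈ T, ((univ.filter (fun c : (↥P → Fin k) =>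
      ∀ p : ↥P, (p : ℕ) ∈ S t → c p = as t p)).card : ℝ) * (k : ℝ) ^ (S t).card
        = (k : ℝ) ^ P.card := by
    intro t ht
    have h1 : (univ.filter (fun c : (↥P → Fin k) => ∀ p : ↥P, (p : ℕ) ∈ S t → c p = as t p))
        = Fintype.piFinset (fun p : ↥P => if (p : ℕ) ∈ S t then {as t p} else univ) := by
      ext c
      simp only [Finset.mem_filter, Finset.mem_univ, true_and, Fintype.mem_piFinset]
      constructor
      · intro h p
        by_cases hp : (p : ℕ) ∈ S t
        · rw [if_pos hp, Finset.mem_singleton]; exact h p hp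
        · rw [if_neg hp]; exact Finset.mem_univ _
      · intro h p hp
        have := h p
        rw [if_pos hp, Finset.mem_singleton] at this
        exact this
    rw [h1, Fintype.card_piFinset]
    have h2 : ∀ p : ↥P, (if (p : ℕ) ∈ S t then ({as t p} : Finset (Fin k)) else univ).card
        = if (p : ℕ) ∈ S t then 1 else k := by
      intro p
      split_ifs <;> simp
    have h3 : ∏ p : ↥P, (if (p : ℕ) ∈ S t then ({as t p} : Finset (Fin k)) else univ).card
        = ∏ p ∈ P, (if p ∈ S t then 1 else k) := by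
      rw [Finset.prod_congr rfl (fun p _ => h2 p)]
      exact Finset.prod_coe_sort P (fun p => if p ∈ S t then 1 else k)
    rw [h3]
    have h4 : (k : ℝ) ^ (S t).card = ∏ p ∈ P, (if p ∈ S t then (k : ℝ) else 1) := by
      rw [Finset.prod_ite_mem, Finset.inter_eq_right.2 (hS t ht), Finset.prod_const]
    rw [h4]
    push_cast
    rw [← Finset.prod_mul_distrib, ← Finset.prod_const]
    apply Finset.prod_congr rfl
    intro p _
    split_ifs <;> simp
  -- extension of functions on `P`
  let ex : (↥P → Fin k) → ℕ → Fin k := fun c p => if h : p ∈ P then c ⟨p, h⟩ else 0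
  by_contra hcon
  push Not at hcon
  have hlt : ∑ c : (↥P → Fin k), ∑ t ∈ T,
      (if (∀ p ∈ S t, ex c p = as t p) then (k : ℝ) ^ (S t).card * w t else 0)
      < ∑ _c : (↥P → Fin k), ∑ t ∈ T, w t := by
    apply Finset.sum_lt_sum_of_nonempty
    · exact Finset.univ_nonempty
    · intro c _
      exact hcon (ex c)
  rw [Finset.sum_comm, Finset.sum_const, Finset.card_univ, Fintype.card_fun, Fintype.card_fin,
    Fintype.card_coe, nsmul_eq_mul] at hlt
  have heq : ∑ t ∈ T, ∑ c : (↥P → Fin k),
      (if (∀ p ∈ S t, ex c p = as t p) then (k : ℝ) ^ (S t).card * w t else 0)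
      = ((k ^ P.card : ℕ) : ℝ) * ∑ t ∈ T, w t := by
    rw [Finset.mul_sum]
    apply Finset.sum_congr rfl
    intro t ht
    rw [← Finset.sum_filter, Finset.sum_const, nsmul_eq_mul]
    have hf : (univ.filter (fun c : (↥P → Fin k) => ∀ p ∈ S t, ex c p = as t p))
        = (univ.filter (fun c : (↥P → Fin k) => ∀ p : ↥P, (p : ℕ) ∈ S t → c p = as t p)) := by
      ext c
      simp only [Finset.mem_filter, Finset.mem_univ, true_and]
      constructor
      · intro h p hp
        have := h p hp
        simpa [ex, p.2] using this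
      · intro h p hp
        have hpP := hS t ht hp
        have := h ⟨p, hpP⟩ hp
        simpa [ex, hpP] using this
    rw [hf, ← mul_assoc, hcount t ht]
    push_cast
    ring
  rw [heq] at hlt
  exact lt_irrefl _ hlt

end Pool.Agent.BGG
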