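import Mathlib

/-!
# MP_3509fd_nt, part G: common definitions (discrepancies, Siegel–Walfisz property, bilinear estimate BIL,
distribution statement EHs, Bombieri–Vinogradov statement BVs).
-/

namespace Pool.Agent.BGG

open Finset

/-- The discrepancy of `f` on `{1,…,X}` in the residue class `a` modulo `q`:
`∑_{n ≡ a (q)} f n - (1/φ(q)) ∑_{(n,q)=1} f n`. -/
noncomputable def Dsc (X : ℕ) (f : ℕ → ℝ) (q : ℕ) (a : ℤ) : ℝ :=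
  (∑ n ∈ Icc 1 X, if (q : ℤ) ∣ (n : ℤ) - a then f n else 0)
    - (∑ n ∈ Icc 1 X, if Nat.Coprime n q then f n else 0) / (q.totient : ℝ)

/-- The bilinear discrepancy of `α * β` (variables `m ≤ X`, `n ≤ Y`) in the class `a` modulo `q`. -/
noncomputable def Dsc2 (X Y : ℕ) (α β : ℕ → ℝ) (q : ℕ) (a : ℤ) : ℝ :=
  (∑ m ∈ Icc 1 X, ∑ n ∈ Icc 1 Y, if (q : ℤ) ∣ ((m * n : ℕ) : ℤ) - a then α m * β n else 0)
    - (∑ m ∈ Icc 1 X, ∑ n ∈ Icc 1 Y, if Nat.Coprime (m * n) q then α m * β n else 0)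
        / (q.totient : ℝ)

/-- Siegel–Walfisz property of a sequence `β` at scale `N` (supported in `(N, 4N]`), with constants `K j`. -/
def SW (K : ℕ → ℝ) (x N : ℝ) (β : ℕ → ℝ) : Prop :=
  ∀ (j r s : ℕ) (b : ℤ), 1 ≤ r → 1 ≤ s → IsCoprime b (r : ℤ) →
    |(∑ n ∈ Icc 1 ⌊4 * N⌋₊, if (r : ℤ) ∣ (n : ℤ) - b ∧ Nat.Coprime n s then β n else 0)
      - (∑ n ∈ Icc 1 ⌊4 * N⌋₊, if Nat.Coprime n (r * s) then β n else 0) / (r.totient : ℝ)|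
      ≤ K j * (s.divisors.card : ℝ) * N / (Real.log x) ^ j

/-- The bilinear estimate for the moduli `D x` (what part B delivers). -/
def BIL (D : ℝ → Finset ℕ) : Prop :=
  ∀ (A : ℕ) (K : ℕ → ℝ), ∃ C : ℝ, ∀ x : ℝ, 2 ≤ x → ∀ a : ℤ, ∀ M N : ℝ,
    x ^ (1 / 3 : ℝ) / 4 ≤ N → N ≤ 4 * x ^ (1 / 2 : ℝ) → x / 4 ≤ M * N → M * N ≤ 4 * x →
    ∀ α β : ℕ → ℝ,
      (∀ m, α m ≠ 0 → M < (m : ℝ) ∧ (m : ℝ) ≤ 4 * M) →
      (∀ n, β n ≠ 0 → N < (n : ℝ) ∧ (n : ℝ) ≤ 4 * N) →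
      (∀ m, |α m| ≤ Real.log x) → (∀ n, |β n| ≤ Real.log x) → SW K x N β →
      ∑ q ∈ D x, (if IsCoprime a (q : ℤ) then |Dsc2 ⌊4 * M⌋₊ ⌊4 * N⌋₊ α β q a| else 0)
        ≤ C * x / (Real.log x) ^ A

/-- The error term of the primes (weighted by `Λ`) in the interval `(y, z]` and the class `a` modulo `q`. -/
noncomputable def LamErr (y z : ℝ) (q : ℕ) (a : ℤ) : ℝ :=
  (∑ n ∈ Icc 1 ⌊z⌋₊, if y < (n : ℝ) ∧ (q : ℤ) ∣ (n : ℤ) - a then ArithmeticFunction.vonMangoldt n else 0)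
    - (z - y) / (q.totient : ℝ)

/-- Equidistribution of `Λ` for the moduli `D x`, one integer `a` for all moduli, uniformly in `a`. -/
def EHs (D : ℝ → Finset ℕ) : Prop :=
  ∀ A : ℕ, ∃ C : ℝ, ∀ x : ℝ, 2 ≤ x → ∀ a : ℤ, ∀ y z : ℝ, x ≤ y → y ≤ z → z ≤ 3 * x →
    ∑ q ∈ D x, (if IsCoprime a (q : ℤ) then |LamErr y z q a| else 0) ≤ C * x / (Real.log x) ^ A

/-- Bombieri–Vinogradov with exponent `θ < 1/2` (arbitrary classes `a q`). -/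
def BVs (θ : ℝ) : Prop :=
  ∀ A : ℕ, ∃ C : ℝ, ∀ x : ℝ, 2 ≤ x → ∀ a : ℕ → ℤ, ∀ y z : ℝ, x ≤ y → y ≤ z → z ≤ 3 * x →
    ∑ q ∈ Icc 1 ⌊x ^ θ⌋₊, (if IsCoprime (a q) (q : ℤ) then |LamErr y z q (a q)| else 0)
      ≤ C * x / (Real.log x) ^ A

/-- Siegel–Walfisz for the Moebius function (with a coprimality condition). -/
def SWmu : Prop :=
  ∀ A : ℕ, ∃ C : ℝ, ∀ y : ℝ, 2 ≤ y → ∀ (r s : ℕ) (b : ℤ), 1 ≤ r → 1 ≤ s → IsCoprime b (r : ℤ) →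
    |∑ n ∈ Icc 1 ⌊y⌋₊, (if (r : ℤ) ∣ (n : ℤ) - b ∧ Nat.Coprime n s then
        ((ArithmeticFunction.moebius n : ℤ) : ℝ) else 0)|
      ≤ C * (s.divisors.card : ℝ) * y / (Real.log y) ^ A

/-- Siegel–Walfisz for the von Mangoldt function. -/
def SWLam : Prop :=
  ∀ A : ℕ, ∃ C : ℝ, ∀ y : ℝ, 2 ≤ y → ∀ (r : ℕ) (b : ℤ), 1 ≤ r → IsCoprime b (r : ℤ) →
    |(∑ n ∈ Icc 1 ⌊y⌋₊, if (r : ℤ) ∣ (n : ℤ) - b then ArithmeticFunction.vonMangoldt n else 0)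
        - y / (r.totient : ℝ)| ≤ C * y / (Real.log y) ^ A

end Pool.Agent.BGG
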