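import Pool.Agent.BGG.Defs

/-!
Elementary bounds: totient, divisor sums.
-/

namespace Pool.Agent.BGG

open Finset

lemma aux_totient_mul_tau (q : ℕ) : q ≤ q.totient * q.divisors.card := by
  rcases Nat.eq_zero_or_pos q with h | h
  · simp [h]
  calc q = ∑ m ∈ q.divisors, m.totient := (Nat.sum_totient q).symm
    _ ≤ ∑ _m ∈ q.divisors, q.totient := by
        apply Finset.sum_le_sum
        intro m hm
        exact Nat.le_of_dvd (Nat.totient_pos.2 h) (Nat.totient_dvd_of_dvd (Nat.dvd_of_mem_divisors hm))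
    _ = q.totient * q.divisors.card := by
        rw [Finset.sum_const, smul_eq_mul, mul_comm]

lemma aux_inv_totient_le {q : ℕ} (hq : 1 ≤ q) :
    1 / (q.totient : ℝ) ≤ (q.divisors.card : ℝ) / q := by
  have h1 : (0:ℝ) < q.totient := by exact_mod_cast Nat.totient_pos.2 hq
  have h2 : (0:ℝ) < q := by exact_mod_cast hq
  rw [div_le_div_iff₀ h1 h2]
  have := aux_totient_mul_tau q
  have h3 : (q:ℝ) ≤ q.totient * q.divisors.card := by exact_mod_cast this
  linarith

lemma aux_tau_mul_le (a b : ℕ) : (a * b).divisors.card ≤ a.divisors.card * b.divisors.card := by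
  classical
  have h := Nat.divisors_mul a b
  calc (a * b).divisors.card = (Finset.image₂ (· * ·) a.divisors b.divisors).card := by
        rw [h]; rfl
    _ ≤ _ := Finset.card_image₂_le _ _ _

/-- `∑_{d ≤ X} τ(d)^j / d ≤ (1 + log X)^(2^j)`. -/
lemma aux_sum_tau_pow (j X : ℕ) :
    ∑ d ∈ Icc 1 X, ((d.divisors.card : ℝ)) ^ j / d ≤ (1 + Real.log X) ^ (2 ^ j) := by
  classical
  have key : ∀ j : ℕ, ∑ d ∈ Icc 1 X, ((d.divisors.card : ℝ)) ^ (j+1) / d
      ≤ (∑ d ∈ Icc 1 X, ((d.divisors.card : ℝ)) ^ j / d) ^ 2 := by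
    intro j
    set g : ℕ × ℕ → ℝ := fun p =>
      (((p.1.divisors.card : ℝ)) ^ j / p.1) * (((p.2.divisors.card : ℝ)) ^ j / p.2) with hg
    have hgn : ∀ p, 0 ≤ g p := fun p => by simp only [hg]; positivity
    have h1 : ∑ d ∈ Icc 1 X, ((d.divisors.card : ℝ)) ^ (j+1) / d
        ≤ ∑ d ∈ Icc 1 X, ∑ p ∈ ((Icc 1 X) ×ˢ (Icc 1 X)).filter (fun p => p.1 * p.2 = d), g p := by
      apply Finset.sum_le_sum
      intro d hd
      rw [Finset.mem_Icc] at hd
      have hd0 : d ≠ 0 := by omega
      have hcard : (d.divisorsAntidiagonal.card : ℝ) = d.divisors.card := by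
        rw [← Nat.map_div_right_divisors, Finset.card_map]
      calc ((d.divisors.card : ℝ)) ^ (j+1) / d
          = ∑ p ∈ d.divisorsAntidiagonal, ((d.divisors.card : ℝ)) ^ j / d := by
            rw [Finset.sum_const, nsmul_eq_mul, hcard, pow_succ]; ring
        _ ≤ ∑ p ∈ d.divisorsAntidiagonal, g p := by
            apply Finset.sum_le_sum
            intro p hp
            rw [Nat.mem_divisorsAntidiagonal] at hp
            have hp1 : (0:ℝ) < p.1 := by
              have : p.1 ≠ 0 := fun h => hd0 (by rw [← hp.1, h, zero_mul])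
              exact_mod_cast Nat.pos_of_ne_zero this
            have hp2 : (0:ℝ) < p.2 := by
              have : p.2 ≠ 0 := fun h => hd0 (by rw [← hp.1, h, mul_zero])
              exact_mod_cast Nat.pos_of_ne_zero this
            have hdd : (d:ℝ) = p.1 * p.2 := by rw [← hp.1]; push_cast; ring
            have ht : (d.divisors.card : ℝ) ≤ p.1.divisors.card * p.2.divisors.card := by
              rw [← hp.1]; exact_mod_cast aux_tau_mul_le p.1 p.2
            simp only [hg]
            rw [div_mul_div_comm, ← mul_pow, hdd]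
            gcongr
        _ ≤ _ := by
            apply Finset.sum_le_sum_of_subset_of_nonneg
            · intro p hp
              rw [Nat.mem_divisorsAntidiagonal] at hp
              have hp1 : p.1 ≠ 0 := fun h => hd0 (by rw [← hp.1, h, zero_mul])
              have hp2 : p.2 ≠ 0 := fun h => hd0 (by rw [← hp.1, h, mul_zero])
              simp only [Finset.mem_filter, Finset.mem_product, Finset.mem_Icc]
              refine ⟨⟨⟨by omega, ?_⟩, ⟨by omega, ?_⟩⟩, hp.1⟩
              · exact le_trans (Nat.le_of_dvd (by omega) (Dvd.intro _ hp.1)) hd.2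
              · exact le_trans (Nat.le_of_dvd (by omega) (Dvd.intro_left _ hp.1)) hd.2
            · intro p _ _; exact hgn p
    refine h1.trans ?_
    have h2 := Finset.sum_fiberwise_le_sum_of_sum_fiber_nonneg
      (s := (Icc 1 X) ×ˢ (Icc 1 X)) (t := Icc 1 X) (g := fun p : ℕ × ℕ => p.1 * p.2) (f := g)
      (fun y _ => Finset.sum_nonneg (fun p _ => hgn p))
    refine h2.trans (le_of_eq ?_)
    rw [Finset.sum_product, sq, Finset.sum_mul_sum]
  have hS0 : ∀ j : ℕ, 0 ≤ ∑ d ∈ Icc 1 X, ((d.divisors.card : ℝ)) ^ j / d := fun j =>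
    Finset.sum_nonneg (fun d _ => by positivity)
  induction j with
  | zero =>
    simp only [pow_zero, pow_one]
    have := harmonic_le_one_add_log X
    rw [harmonic_eq_sum_Icc] at this
    push_cast at this
    simpa [one_div] using this
  | succ j ih =>
    calc _ ≤ _ := key j
      _ ≤ ((1 + Real.log X) ^ (2 ^ j)) ^ 2 := by
          gcongr
      _ = _ := by rw [← pow_mul, pow_succ 2 j]

lemma aux_two_pow_omega_le (n : ℕ) (hn : n ≠ 0) : 2 ^ n.primeFactors.card ≤ n.divisors.card := by
  rw [Nat.card_divisors hn, ← Finset.prod_const]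
  apply Finset.prod_le_prod'
  intro p hp
  have := (Nat.Prime.factorization_pos_of_dvd (Nat.prime_of_mem_primeFactors hp) hn
    (Nat.dvd_of_mem_primeFactors hp))
  omega

end Pool.Agent.BGG
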