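import Pool.Agent.BGG.Col

/-!
Section 7, steps (1), (2): one integer `a` for a colouring; vectors of moduli.
-/

namespace Pool.Agent.BGG

open Finset

/-- error term for a vector of moduli: `n ≡ b (W)`, `n ≡ h m - h i (q i)` for `i ≠ m` -/
noncomputable def VecErr {k : ℕ} (h : Fin k → ℕ) (m : Fin k) (W : ℕ) (b : ℤ) (y z : ℝ)
    (q : Fin k → ℕ) : ℝ :=
  (∑ n ∈ Icc 1 ⌊z⌋₊, if y < (n : ℝ) ∧ (W : ℤ) ∣ (n : ℤ) - b ∧
      (∀ i, i ≠ m → (q i : ℤ) ∣ (n : ℤ) - ((h m : ℤ) - (h i : ℤ)))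
      then ArithmeticFunction.vonMangoldt n else 0)
    - (z - y) / ((W * ∏ i, q i).totient : ℝ)

/-- admissible vectors of moduli -/
structure VecOK {k : ℕ} (h : Fin k → ℕ) (m : Fin k) (W : ℕ) (q : Fin k → ℕ) : Prop where
  one : q m = 1
  sqf : ∀ i, Squarefree (q i)
  cop : ∀ i j, i ≠ j → Nat.Coprime (q i) (q j)
  copW : ∀ i, Nat.Coprime (q i) W
  hdiff : ∀ i, i ≠ m → ∀ p : ℕ, p.Prime → p ∣ q i → ¬ ((p : ℤ) ∣ (h m : ℤ) - (h i : ℤ))

lemma crt_exists (W : ℕ) (b : ℤ) (v : ℕ → ℤ) (P : Finset ℕ)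
    (hP : ∀ p ∈ P, p.Prime ∧ Nat.Coprime p W) :
    ∃ a : ℤ, (W : ℤ) ∣ a - b ∧ ∀ p ∈ P, (p : ℤ) ∣ a - v p := by
  classical
  induction P using Finset.induction_on with
  | empty => exact ⟨b, by simp, by simp⟩
  | insert p P hpP ih =>
    obtain ⟨a, haW, haP⟩ := ih (fun p hp => hP p (Finset.mem_insert_of_mem hp))
    have hp := hP p (Finset.mem_insert_self _ _)
    have hcop : IsCoprime ((W : ℤ) * ∏ r ∈ P, (r : ℤ)) (p : ℤ) := by
      apply IsCoprime.mul_left
      · rw [Nat.isCoprime_iff_coprime]; exact hp.2.symm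
      · apply IsCoprime.prod_left
        intro r hr
        rw [Nat.isCoprime_iff_coprime]
        have hr' := hP r (Finset.mem_insert_of_mem hr)
        rw [Nat.coprime_primes hr'.1 hp.1]
        rintro rfl
        exact hpP hr
    obtain ⟨u, s, hus⟩ := hcop
    set M : ℤ := (W : ℤ) * ∏ r ∈ P, (r : ℤ) with hM
    refine ⟨a + M * (u * (v p - a)), ?_, ?_⟩
    · have : a + M * (u * (v p - a)) - b = (a - b) + (W : ℤ) * ((∏ r ∈ P, (r : ℤ)) * (u * (v p - a))) := by
        rw [hM]; ring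
      rw [this]
      exact dvd_add haW (dvd_mul_right _ _)
    · intro r hr
      rw [Finset.mem_insert] at hr
      rcases hr with rfl | hr
      · have : a + M * (u * (v r - a)) - v r = (r : ℤ) * (-(s * (v r - a))) := by
          have h1 : u * M = 1 - s * r := by linarith
          calc a + M * (u * (v r - a)) - v r = (u * M) * (v r - a) - (v r - a) := by ring
            _ = (1 - s * r) * (v r - a) - (v r - a) := by rw [h1]
            _ = _ := by ring
        rw [this]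
        exact dvd_mul_right _ _
      · have : a + M * (u * (v p - a)) - v r = (a - v r) + M * (u * (v p - a)) := by ring
        rw [this]
        apply dvd_add (haP r hr)
        apply Dvd.dvd.mul_right
        rw [hM]
        apply Dvd.dvd.mul_left
        exact Finset.dvd_prod_of_mem (fun r : ℕ => (r : ℤ)) hr

lemma sqf_dvd_int {q : ℕ} (hq : Squarefree q) {z : ℤ}
    (h : ∀ p : ℕ, p.Prime → p ∣ q → (p : ℤ) ∣ z) : (q : ℤ) ∣ z := by
  rw [Int.natCast_dvd]
  rw [← Nat.prod_primeFactors_of_squarefree hq]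
  apply Finset.prod_primes_dvd
  · intro p hp
    exact (Nat.prime_of_mem_primeFactors hp).prime
  · intro p hp
    have := h p (Nat.prime_of_mem_primeFactors hp) (Nat.dvd_of_mem_primeFactors hp)
    rwa [Int.natCast_dvd] at this

section

variable {k : ℕ} {h : Fin k → ℕ} {m : Fin k} {W : ℕ} {q : Fin k → ℕ}

/-- `a` represents the classes of the vector `q` -/
def Rep (h : Fin k → ℕ) (m : Fin k) (W : ℕ) (b : ℤ) (q : Fin k → ℕ) (a : ℤ) : Prop :=
  (W : ℤ) ∣ a - b ∧ ∀ i, i ≠ m → (q i : ℤ) ∣ a - ((h m : ℤ) - (h i : ℤ))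

lemma prod_cop_dvd {z : ℤ} (hq : VecOK h m W q) (h1 : (W : ℤ) ∣ z) (h2 : ∀ i, (q i : ℤ) ∣ z) :
    ((W * ∏ i, q i : ℕ) : ℤ) ∣ z := by
  push_cast
  apply IsCoprime.mul_dvd
  · apply IsCoprime.prod_right
    intro i _
    rw [Nat.isCoprime_iff_coprime]
    exact (hq.copW i).symm
  · exact h1
  · apply Finset.prod_dvd_of_coprime
    · intro i _ j _ hij
      show IsCoprime _ _
      rw [Nat.isCoprime_iff_coprime]
      exact hq.cop i j hij
    · intro i _; exact h2 i

lemma rep_dvd_iff {b a : ℤ} (hq : VecOK h m W q) (ha : Rep h m W b q a) (n : ℤ) :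
    ((W * ∏ i, q i : ℕ) : ℤ) ∣ n - a ↔
      (W : ℤ) ∣ n - b ∧ ∀ i, i ≠ m → (q i : ℤ) ∣ n - ((h m : ℤ) - (h i : ℤ)) := by
  constructor
  · intro hd
    have hW : (W : ℤ) ∣ ((W * ∏ i, q i : ℕ) : ℤ) := by
      push_cast; exact dvd_mul_right _ _
    have hqi : ∀ i, (q i : ℤ) ∣ ((W * ∏ i, q i : ℕ) : ℤ) := by
      intro i
      push_cast
      exact Dvd.dvd.mul_left (Finset.dvd_prod_of_mem (fun i => (q i : ℤ)) (Finset.mem_univ i)) _
    refine ⟨?_, fun i hi => ?_⟩
    · have := dvd_add (hW.trans hd) ha.1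
      simpa using this
    · have := dvd_add ((hqi i).trans hd) (ha.2 i hi)
      simpa using this
  · rintro ⟨h1, h2⟩
    apply prod_cop_dvd hq
    · have := dvd_sub h1 ha.1
      simpa using this
    · intro i
      by_cases hi : i = m
      · rw [hi, hq.one]; simp
      · have := dvd_sub (h2 i hi) (ha.2 i hi)
        simpa using this

lemma vecErr_eq {b a : ℤ} (hq : VecOK h m W q) (ha : Rep h m W b q a) (y z : ℝ) :
    VecErr h m W b y z q = LamErr y z (W * ∏ i, q i) a := by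
  unfold VecErr LamErr
  congr 1
  apply Finset.sum_congr rfl
  intro n _
  have := rep_dvd_iff hq ha (n : ℤ)
  by_cases hy : y < (n : ℝ)
  · by_cases hd : ((W * ∏ i, q i : ℕ) : ℤ) ∣ (n : ℤ) - a
    · rw [if_pos ⟨hy, this.1 hd⟩, if_pos ⟨hy, hd⟩]
    · rw [if_neg (fun hh => hd (this.2 hh.2)), if_neg (fun hh => hd hh.2)]
  · rw [if_neg (fun hh => hy hh.1), if_neg (fun hh => hy hh.1)]

lemma rep_coprime {b a : ℤ} (hb : IsCoprime b (W : ℤ)) (hq : VecOK h m W q)
    (ha : Rep h m W b q a) : IsCoprime a ((W * ∏ i, q i : ℕ) : ℤ) := by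
  push_cast
  apply IsCoprime.mul_right
  · obtain ⟨c, hc⟩ := ha.1
    have : a = b + (W : ℤ) * c := by linarith
    rw [this]
    exact (IsCoprime.add_mul_left_left_iff).2 hb
  · apply IsCoprime.prod_right
    intro i _
    by_cases hi : i = m
    · rw [hi, hq.one]; exact_mod_cast isCoprime_one_right
    · rw [Int.isCoprime_iff_gcd_eq_one]
      by_contra hg
      obtain ⟨p, hp, hpg⟩ := Nat.exists_prime_and_dvd hg
      have hpa : (p : ℤ) ∣ a := by
        have := Int.gcd_dvd_left (a := a) (b := (q i : ℤ))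
        exact (Int.natCast_dvd_natCast.2 hpg).trans this
      have hpq : (p : ℤ) ∣ (q i : ℤ) := by
        have := Int.gcd_dvd_right (a := a) (b := (q i : ℤ))
        exact (Int.natCast_dvd_natCast.2 hpg).trans this
      apply hq.hdiff i hi p hp (Int.natCast_dvd_natCast.1 hpq)
      have h1 := hpq.trans (ha.2 i hi)
      have := dvd_sub hpa h1
      simpa using this

end

end Pool.Agent.BGG
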