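import Pool.Agent.BGG.Vec

/-!
Section 7, steps (3), (4): trivial bound, Cauchy–Schwarz, multiplicities.
-/

namespace Pool.Agent.BGG

open Finset

/-- the number of `n ≤ X` in a residue class is at most `X/r + 1` -/
lemma card_class_le (X r : ℕ) (_hr : 1 ≤ r) (a : ℤ) :
    (((Icc 1 X).filter (fun n : ℕ => (r : ℤ) ∣ (n : ℤ) - a)).card : ℝ) ≤ X / r + 1 := by
  have h1 : ((Icc 1 X).filter (fun n : ℕ => (r : ℤ) ∣ (n : ℤ) - a)).card ≤ (range (X / r + 1)).card := by
    apply Finset.card_le_card_of_injOn (fun n => n / r)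
    · intro n hn
      have hn' := Finset.mem_coe.1 hn
      rw [Finset.mem_filter, Finset.mem_Icc] at hn'
      show n / r ∈ (↑(range (X / r + 1)) : Set ℕ)
      rw [Finset.mem_coe, Finset.mem_range]
      have := Nat.div_le_div_right (c := r) hn'.1.2
      omega
    · intro n hn n' hn' he
      have hn1 := Finset.mem_coe.1 hn
      have hn2 := Finset.mem_coe.1 hn'
      rw [Finset.mem_filter] at hn1 hn2
      have h3 : (r : ℤ) ∣ (n : ℤ) - n' := by
        have := dvd_sub hn1.2 hn2.2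
        simpa using this
      have h4 : n % r = n' % r := by
        have h5 : (n' : ℤ) ≡ n [ZMOD r] := Int.modEq_iff_dvd.2 h3
        exact ((Int.natCast_modEq_iff).1 h5).symm
      have he' : n / r = n' / r := he
      rw [← Nat.div_add_mod n r, ← Nat.div_add_mod n' r, h4, he']
  rw [Finset.card_range] at h1
  have h2 : (((Icc 1 X).filter (fun n : ℕ => (r : ℤ) ∣ (n : ℤ) - a)).card : ℝ) ≤ ((X / r : ℕ) : ℝ) + 1 := by
    exact_mod_cast h1
  refine h2.trans ?_
  gcongr
  exact Nat.cast_div_le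

lemma LamErr_trivial {x y z : ℝ} (hx : 2 ≤ x) (hxy : x ≤ y) (hyz : y ≤ z) (hz : z ≤ 3 * x)
    (r : ℕ) (hr : 1 ≤ r) (hrx : (r : ℝ) ≤ 3 * x) (a : ℤ) :
    |LamErr y z r a| ≤ 6 * x * (1 + Real.log (3 * x)) * ((r.divisors.card : ℝ) / r) := by
  have hr0 : (0:ℝ) < r := by exact_mod_cast hr
  have hφ : (0:ℝ) < r.totient := by exact_mod_cast Nat.totient_pos.2 hr
  have hz1 : 1 ≤ z := by linarith
  have hL : 0 ≤ Real.log (3 * x) := Real.log_nonneg (by linarith)
  have hτ : (1:ℝ) ≤ r.divisors.card := by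
    have : 0 < r.divisors.card := Finset.card_pos.2 ⟨1, Nat.one_mem_divisors.2 (by omega)⟩
    exact_mod_cast this
  have hfl : ((⌊z⌋₊ : ℕ) : ℝ) ≤ z := Nat.floor_le (by linarith)
  -- first part
  have h1 : |∑ n ∈ Icc 1 ⌊z⌋₊, (if y < (n : ℝ) ∧ (r : ℤ) ∣ (n : ℤ) - a then
      ArithmeticFunction.vonMangoldt n else 0)| ≤ Real.log (3 * x) * (6 * x / r) := by
    rw [abs_of_nonneg (Finset.sum_nonneg (fun n _ => by
      split_ifs
      · exact ArithmeticFunction.vonMangoldt_nonneg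
      · exact le_rfl))]
    calc ∑ n ∈ Icc 1 ⌊z⌋₊, (if y < (n : ℝ) ∧ (r : ℤ) ∣ (n : ℤ) - a then
          ArithmeticFunction.vonMangoldt n else 0)
        ≤ ∑ n ∈ Icc 1 ⌊z⌋₊, (if (r : ℤ) ∣ (n : ℤ) - a then Real.log (3 * x) else 0) := by
          apply Finset.sum_le_sum
          intro n hn
          rw [Finset.mem_Icc] at hn
          split_ifs with h1 h2 h2
          · refine ArithmeticFunction.vonMangoldt_le_log.trans ?_
            apply Real.log_le_log (by exact_mod_cast hn.1)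
            have : (n : ℝ) ≤ ⌊z⌋₊ := by exact_mod_cast hn.2
            linarith
          · exact absurd h1.2 h2
          · exact hL
          · exact le_rfl
      _ = (((Icc 1 ⌊z⌋₊).filter (fun n : ℕ => (r : ℤ) ∣ (n : ℤ) - a)).card : ℝ) * Real.log (3 * x) := by
          rw [← Finset.sum_filter, Finset.sum_const, nsmul_eq_mul]
      _ ≤ ((⌊z⌋₊ : ℝ) / r + 1) * Real.log (3 * x) := by
          gcongr
          exact card_class_le _ r hr a
      _ ≤ (6 * x / r) * Real.log (3 * x) := by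
          gcongr
          rw [div_add_one hr0.ne']
          gcongr
          linarith
      _ = _ := by ring
  have h2 : |(z - y) / (r.totient : ℝ)| ≤ 6 * x * ((r.divisors.card : ℝ) / r) := by
    rw [abs_of_nonneg (div_nonneg (by linarith) hφ.le), div_eq_mul_one_div]
    apply mul_le_mul (by linarith) (aux_inv_totient_le hr) (by positivity) (by linarith)
  unfold LamErr
  calc _ ≤ _ := abs_sub _ _
    _ ≤ Real.log (3 * x) * (6 * x / r) + 6 * x * ((r.divisors.card : ℝ) / r) := add_le_add h1 h2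
    _ ≤ Real.log (3 * x) * (6 * x * ((r.divisors.card : ℝ) / r)) + 6 * x * ((r.divisors.card : ℝ) / r) := by
        have h3 : 6 * x / r ≤ 6 * x * ((r.divisors.card : ℝ) / r) := by
          rw [div_eq_mul_one_div]
          gcongr
        gcongr
    _ = _ := by ring

/-- Cauchy–Schwarz with multiplicities -/
lemma cs_mult (R : Finset ℕ) (K : ℝ) (_hK : 0 ≤ K) (E : ℕ → ℝ) (hE : ∀ r ∈ R, 0 ≤ E r) :
    (∑ r ∈ R, K ^ r.primeFactors.card * E r) ^ 2
      ≤ (∑ r ∈ R, (K ^ r.primeFactors.card) ^ 2 * E r) * ∑ r ∈ R, E r := by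
  have h := Finset.sum_mul_sq_le_sq_mul_sq R
    (fun r => K ^ r.primeFactors.card * Real.sqrt (E r)) (fun r => Real.sqrt (E r))
  have e1 : ∑ r ∈ R, (K ^ r.primeFactors.card * Real.sqrt (E r)) * Real.sqrt (E r)
      = ∑ r ∈ R, K ^ r.primeFactors.card * E r := by
    apply Finset.sum_congr rfl
    intro r hr
    rw [mul_assoc, Real.mul_self_sqrt (hE r hr)]
  have e2 : ∑ r ∈ R, (K ^ r.primeFactors.card * Real.sqrt (E r)) ^ 2
      = ∑ r ∈ R, (K ^ r.primeFactors.card) ^ 2 * E r := by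
    apply Finset.sum_congr rfl
    intro r hr
    rw [mul_pow, Real.sq_sqrt (hE r hr)]
  have e3 : ∑ r ∈ R, (Real.sqrt (E r)) ^ 2 = ∑ r ∈ R, E r := by
    apply Finset.sum_congr rfl
    intro r hr
    rw [Real.sq_sqrt (hE r hr)]
  rw [e1, e2, e3] at h
  exact h

lemma log_three_le {x : ℝ} (hx : 2 ≤ x) : 1 + Real.log (3 * x) ≤ 5 * Real.log x := by
  have h2 : (0.6931471803 : ℝ) < Real.log 2 := Real.log_two_gt_d9
  have hlx : Real.log 2 ≤ Real.log x := Real.log_le_log (by norm_num) hx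
  have h3 : Real.log 3 ≤ 2 * Real.log 2 := by
    rw [← Real.log_rpow (by norm_num)]
    apply Real.log_le_log (by norm_num)
    norm_num
  rw [Real.log_mul (by norm_num) (by linarith)]
  linarith

/-- the bound for the sum over a set of moduli with multiplicities `K^ω` -/
lemma mult_bound (j A : ℕ) (C0 : ℝ) :
    ∃ C : ℝ, ∀ x : ℝ, 2 ≤ x → ∀ y z : ℝ, x ≤ y → y ≤ z → z ≤ 3 * x → ∀ (R : Finset ℕ) (a : ℤ) (K : ℝ),
      0 ≤ K → K ≤ 2 ^ j → (∀ r ∈ R, 1 ≤ r ∧ (r : ℝ) ≤ x) →
      ∑ r ∈ R, |LamErr y z r a| ≤ C0 * x / (Real.log x) ^ (1 + 2 ^ (2 * j + 1) + 2 * A) →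
      ∑ r ∈ R, K ^ r.primeFactors.card * |LamErr y z r a| ≤ C * x / (Real.log x) ^ A := by
  refine ⟨Real.sqrt (6 * 5 ^ (1 + 2 ^ (2 * j + 1)) * C0), ?_⟩
  intro x hx y z hxy hyz hz R a K hK0 hK hR hsum
  have hL : 0 < Real.log x := Real.log_pos (by linarith)
  have h3 := log_three_le hx
  have hL3 : 0 ≤ Real.log (3 * x) := Real.log_nonneg (by linarith)
  set L := Real.log x with hLdef
  set F := 1 + 2 ^ (2 * j + 1) with hF
  have hS2 : 0 ≤ ∑ r ∈ R, |LamErr y z r a| := Finset.sum_nonneg (fun r _ => abs_nonneg _)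
  have hfirst : ∑ r ∈ R, (K ^ r.primeFactors.card) ^ 2 * |LamErr y z r a| ≤ 6 * x * (5 * L) ^ F := by
    calc ∑ r ∈ R, (K ^ r.primeFactors.card) ^ 2 * |LamErr y z r a|
        ≤ ∑ r ∈ R, 6 * x * (1 + Real.log (3 * x)) * ((r.divisors.card : ℝ) ^ (2 * j + 1) / r) := by
          apply Finset.sum_le_sum
          intro r hr
          obtain ⟨hr1, hrx⟩ := hR r hr
          have hr0 : (0:ℝ) < r := by exact_mod_cast hr1
          have h1 := LamErr_trivial hx hxy hyz hz r hr1 (by linarith) a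
          have h2 : (K ^ r.primeFactors.card) ^ 2 ≤ (r.divisors.card : ℝ) ^ (2 * j) := by
            have h4 : K ^ r.primeFactors.card ≤ (r.divisors.card : ℝ) ^ j := by
              calc K ^ r.primeFactors.card ≤ ((2:ℝ) ^ j) ^ r.primeFactors.card := by gcongr
                _ = ((2:ℝ) ^ r.primeFactors.card) ^ j := by rw [← pow_mul, ← pow_mul, mul_comm]
                _ ≤ _ := by
                  gcongr
                  exact_mod_cast aux_two_pow_omega_le r (by omega)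
            calc (K ^ r.primeFactors.card) ^ 2 ≤ ((r.divisors.card : ℝ) ^ j) ^ 2 := by gcongr
              _ = _ := by rw [← pow_mul, mul_comm]
          calc (K ^ r.primeFactors.card) ^ 2 * |LamErr y z r a|
              ≤ (r.divisors.card : ℝ) ^ (2 * j) * (6 * x * (1 + Real.log (3 * x)) * ((r.divisors.card : ℝ) / r)) := by
                apply mul_le_mul h2 h1 (abs_nonneg _) (by positivity)
            _ = _ := by rw [pow_succ]; ring
      _ = 6 * x * (1 + Real.log (3 * x)) * ∑ r ∈ R, ((r.divisors.card : ℝ) ^ (2 * j + 1) / r) := by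
          rw [Finset.mul_sum]
      _ ≤ 6 * x * (1 + Real.log (3 * x)) * ∑ r ∈ Icc 1 ⌊x⌋₊, ((r.divisors.card : ℝ) ^ (2 * j + 1) / r) := by
          gcongr
          intro r hr
          rw [Finset.mem_Icc]
          exact ⟨(hR r hr).1, Nat.le_floor (hR r hr).2⟩
      _ ≤ 6 * x * (1 + Real.log (3 * x)) * (1 + Real.log (⌊x⌋₊ : ℕ)) ^ (2 ^ (2 * j + 1)) := by
          gcongr
          exact aux_sum_tau_pow _ _
      _ ≤ 6 * x * (5 * L) * (5 * L) ^ (2 ^ (2 * j + 1)) := by
          have hfx : (1:ℝ) ≤ ((⌊x⌋₊ : ℕ) : ℝ) := by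
            exact_mod_cast Nat.le_floor (by push_cast; linarith)
          have h5 : Real.log ((⌊x⌋₊ : ℕ) : ℝ) ≤ Real.log (3 * x) := by
            apply Real.log_le_log (by linarith)
            have := Nat.floor_le (show 0 ≤ x by linarith)
            linarith
          have h6 : 0 ≤ Real.log ((⌊x⌋₊ : ℕ) : ℝ) := Real.log_nonneg hfx
          gcongr
          linarith
      _ = 6 * x * (5 * L) ^ F := by rw [hF, pow_add, pow_one]; ring
  have hcs := cs_mult R K hK0 (fun r => |LamErr y z r a|) (fun r _ => abs_nonneg _)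
  have hfin : (∑ r ∈ R, K ^ r.primeFactors.card * |LamErr y z r a|) ^ 2
      ≤ (6 * 5 ^ F * C0) * (x / L ^ A) ^ 2 := by
    calc _ ≤ _ := hcs
      _ ≤ (6 * x * (5 * L) ^ F) * (C0 * x / L ^ (F + 2 * A)) := by
          apply mul_le_mul hfirst hsum hS2 (by positivity)
      _ = (6 * 5 ^ F * C0) * (x / L ^ A) ^ 2 := by
          rw [mul_pow, pow_add]
          field_simp
          ring
  have hnn : 0 ≤ ∑ r ∈ R, K ^ r.primeFactors.card * |LamErr y z r a| :=
    Finset.sum_nonneg (fun r _ => mul_nonneg (pow_nonneg hK0 _) (abs_nonneg _))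
  calc ∑ r ∈ R, K ^ r.primeFactors.card * |LamErr y z r a|
      = Real.sqrt ((∑ r ∈ R, K ^ r.primeFactors.card * |LamErr y z r a|) ^ 2) := (Real.sqrt_sq hnn).symm
    _ ≤ Real.sqrt ((6 * 5 ^ F * C0) * (x / L ^ A) ^ 2) := Real.sqrt_le_sqrt hfin
    _ = Real.sqrt (6 * 5 ^ F * C0) * (x / L ^ A) := by
        rw [Real.sqrt_mul' _ (sq_nonneg _), Real.sqrt_sq (by positivity)]
    _ = _ := by ring

/-- G-II, vector form. -/
theorem vec_bound (D : ℝ → Finset ℕ) (hEH : EHs D) (θ : ℝ) (hθ : θ ≤ 1) (hBV : BVs θ)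
    (hD : ∀ x : ℝ, 2 ≤ x → ∀ r ∈ D x, 1 ≤ r ∧ (r : ℝ) ≤ x)
    {k : ℕ} (h : Fin k → ℕ) (m : Fin k) (W : ℕ) (hW : 1 ≤ W) (b : ℤ)
    (hb : IsCoprime b (W : ℤ)) (B : ℕ) (hB : 1 ≤ B) (A : ℕ) :
    ∃ C : ℝ, ∀ x : ℝ, 2 ≤ x → ∀ y z : ℝ, x ≤ y → y ≤ z → z ≤ 3 * x → ∀ Q : Finset (Fin k → ℕ),
      (∀ q ∈ Q, VecOK h m W q) →
      (∀ q ∈ Q, W * ∏ i, q i ∈ D x ∨ ((W * ∏ i, q i : ℕ) : ℝ) ≤ x ^ θ) →
      ∑ q ∈ Q, (B : ℝ) ^ (∏ i, q i).primeFactors.card * |VecErr h m W b y z q|
        ≤ C * x / (Real.log x) ^ A := by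
  classical
  set j := B * k with hj
  obtain ⟨C1, hC1⟩ := hEH (1 + 2 ^ (2 * j + 1) + 2 * A)
  obtain ⟨C2, hC2⟩ := hBV (1 + 2 ^ (2 * j + 1) + 2 * A)
  obtain ⟨C, hC⟩ := mult_bound j A (C1 + C2)
  refine ⟨C, ?_⟩
  intro x hx y z hxy hyz hz Q hQ hQD
  obtain ⟨a, ha⟩ := vec_le h m W hW b hb B hB y z Q hQ
  refine ha.trans ?_
  have hx1 : 1 ≤ x := by linarith
  rw [← Finset.sum_filter]
  set R := (Q.image (fun q => W * ∏ i, q i)).filter (fun r : ℕ => IsCoprime a (r : ℤ)) with hR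
  have hmem : ∀ r ∈ R, IsCoprime a (r : ℤ) ∧ 1 ≤ r ∧ (r ∈ D x ∨ (r : ℝ) ≤ x ^ θ) := by
    intro r hr
    rw [hR, Finset.mem_filter, Finset.mem_image] at hr
    obtain ⟨⟨q, hq, rfl⟩, hco⟩ := hr
    refine ⟨hco, ?_, hQD q hq⟩
    have := vec_prod_ne_zero (hQ q hq)
    exact Nat.one_le_iff_ne_zero.2 (mul_ne_zero (by omega) this)
  apply hC x hx y z hxy hyz hz R a ((B * k : ℕ) : ℝ) (by positivity)
  · rw [hj]
    have := Nat.lt_two_pow_self (n := B * k)
    exact_mod_cast this.le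
  · intro r hr
    obtain ⟨_, h1, h2⟩ := hmem r hr
    refine ⟨h1, ?_⟩
    rcases h2 with h2 | h2
    · exact (hD x hx r h2).2
    · refine h2.trans ?_
      calc x ^ θ ≤ x ^ (1:ℝ) := Real.rpow_le_rpow_of_exponent_le hx1 hθ
        _ = x := Real.rpow_one x
  · have h1 := hC1 x hx a y z hxy hyz hz
    have h2 := hC2 x hx (fun _ => a) y z hxy hyz hz
    calc ∑ r ∈ R, |LamErr y z r a|
        ≤ ∑ r ∈ D x ∪ Icc 1 ⌊x ^ θ⌋₊, (if IsCoprime a (r : ℤ) then |LamErr y z r a| else 0) := by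
          calc ∑ r ∈ R, |LamErr y z r a|
              = ∑ r ∈ R, (if IsCoprime a (r : ℤ) then |LamErr y z r a| else 0) := by
                apply Finset.sum_congr rfl
                intro r hr
                rw [if_pos (hmem r hr).1]
            _ ≤ _ := by
                apply Finset.sum_le_sum_of_subset_of_nonneg
                · intro r hr
                  obtain ⟨_, h3, h4⟩ := hmem r hr
                  rw [Finset.mem_union, Finset.mem_Icc]
                  rcases h4 with h4 | h4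
                  · exact Or.inl h4
                  · exact Or.inr ⟨h3, Nat.le_floor h4⟩
                · intro r _ _
                  split_ifs
                  · exact abs_nonneg _
                  · exact le_rfl
      _ ≤ ∑ r ∈ D x, (if IsCoprime a (r : ℤ) then |LamErr y z r a| else 0)
            + ∑ r ∈ Icc 1 ⌊x ^ θ⌋₊, (if IsCoprime a (r : ℤ) then |LamErr y z r a| else 0) := by
          rw [← Finset.sum_union_inter]
          apply le_add_of_nonneg_right
          apply Finset.sum_nonneg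
          intro r _
          split_ifs
          · exact abs_nonneg _
          · exact le_rfl
      _ ≤ _ := add_le_add h1 h2
      _ = _ := by ring

end Pool.Agent.BGG
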