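import Pool.Agent.BGG.ToMT

/-!
G-II: final form: the hypothesis `MT.EH` of part A from `EHs` and `BVs`.
-/

namespace Pool.Agent.BGG

open Finset Filter

lemma log_pow_le_sqrt (F : ℕ) (c : ℝ) (hc : 0 < c) :
    ∀ᶠ N : ℕ in atTop, c * Real.log N ^ F ≤ Real.sqrt N := by
  have h1 := isLittleO_log_rpow_rpow_atTop (F : ℝ) (show (0:ℝ) < 1 / 2 by norm_num)
  have h2 := (h1.def (show (0:ℝ) < 1 / c by positivity))
  have h3 := tendsto_natCast_atTop_atTop (R := ℝ) |>.eventually h2
  filter_upwards [h3, eventually_ge_atTop 1] with N hN hN1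
  have hL : 0 ≤ Real.log (N : ℝ) := Real.log_natCast_nonneg N
  rw [Real.rpow_natCast, Real.norm_of_nonneg (by positivity), Real.norm_of_nonneg (by positivity)] at hN
  rw [Real.sqrt_eq_rpow]
  calc c * Real.log N ^ F ≤ c * (1 / c * (N : ℝ) ^ (1 / 2 : ℝ)) := by gcongr
    _ = _ := by field_simp

/-- the prime power part is negligible -/
lemma pp_small (k H A : ℕ) : ∀ᶠ N : ℕ in atTop,
    Real.sqrt (2 * Real.sqrt ((2 * N + H : ℕ) : ℝ) * Real.log ((2 * N + H : ℕ) : ℝ) ^ 2)
      * Real.sqrt (k * (((2 * N + H : ℕ) : ℝ) * (1 + Real.log ((2 * N + H : ℕ) : ℝ)) ^ (2 ^ (4 * k))))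
      ≤ (1 / 2) * ((N : ℝ) / Real.log N ^ A) := by
  set E := 2 ^ (4 * k) with hE
  set c : ℝ := 4 * (8 * Real.sqrt 3 * (3 * (k + 1) * 3 ^ E)) with hc
  have hcpos : 0 < c := by positivity
  filter_upwards [log_pow_le_sqrt (2 + E + 2 * A) c hcpos, eventually_ge_atTop (H + 3)] with N hN hNH
  have hN3 : (3:ℝ) ≤ N := by exact_mod_cast (show 3 ≤ N by omega)
  have hN0 : (0:ℝ) < N := by linarith
  have hlog1 : 1 ≤ Real.log N := by
    have h1 : Real.log (Real.exp 1) ≤ Real.log 3 := by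
      apply Real.log_le_log (Real.exp_pos _)
      have := Real.exp_one_lt_d9
      linarith
    rw [Real.log_exp] at h1
    exact h1.trans (Real.log_le_log (by norm_num) hN3)
  have hlog0 : 0 < Real.log N := by linarith
  set X : ℝ := ((2 * N + H : ℕ) : ℝ) with hX
  have hX3 : X ≤ 3 * N := by
    rw [hX]
    exact_mod_cast (show 2 * N + H ≤ 3 * N by omega)
  have hX1 : 1 ≤ X := by
    rw [hX]
    exact_mod_cast (show 1 ≤ 2 * N + H by omega)
  have hX0 : 0 ≤ X := by linarith
  have hlX : Real.log X ≤ 2 * Real.log N := by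
    calc Real.log X ≤ Real.log (N * N) := by
          apply Real.log_le_log (by linarith)
          nlinarith
      _ = 2 * Real.log N := by rw [Real.log_mul hN0.ne' hN0.ne']; ring
  have hlX0 : 0 ≤ Real.log X := Real.log_nonneg hX1
  rw [← Real.sqrt_mul (by positivity)]
  rw [show (1 / 2 : ℝ) * ((N : ℝ) / Real.log N ^ A) = Real.sqrt (((1 / 2 : ℝ) * ((N : ℝ) / Real.log N ^ A)) ^ 2) by
    rw [Real.sqrt_sq (by positivity)]]
  apply Real.sqrt_le_sqrt
  have hs : Real.sqrt X ≤ Real.sqrt 3 * Real.sqrt N := by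
    rw [← Real.sqrt_mul (by norm_num)]
    exact Real.sqrt_le_sqrt hX3
  calc (2 * Real.sqrt X * Real.log X ^ 2) * (k * (X * (1 + Real.log X) ^ E))
      ≤ (2 * (Real.sqrt 3 * Real.sqrt N) * (2 * Real.log N) ^ 2)
          * ((k + 1) * ((3 * N) * (3 * Real.log N) ^ E)) := by
        gcongr
        · linarith
        · linarith
    _ = (1 / 4) * (c * Real.log N ^ (2 + E)) * (N * Real.sqrt N) := by
        rw [hc, pow_add]; ring
    _ = (1 / 4) * ((c * Real.log N ^ (2 + E + 2 * A)) / Real.log N ^ (2 * A)) * (N * Real.sqrt N) := by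
        congr 2
        rw [pow_add _ (2 + E) (2 * A)]
        field_simp
    _ ≤ (1 / 4) * (Real.sqrt N / Real.log N ^ (2 * A)) * (N * Real.sqrt N) := by
        gcongr
    _ = (1 / 4) * ((Real.sqrt N * Real.sqrt N) * N / Real.log N ^ (2 * A)) := by ring
    _ = ((1 / 2 : ℝ) * ((N : ℝ) / Real.log N ^ A)) ^ 2 := by
        rw [Real.mul_self_sqrt hN0.le, mul_pow, div_pow (N : ℝ), ← pow_mul, mul_comm A 2]
        ring

open Classical in
/-- G-II: part A's hypothesis from `EHs D` and Bombieri–Vinogradov. -/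
theorem EH_of (D : ℝ → Finset ℕ) (hEH : EHs D) (θ : ℝ) (hθ : θ ≤ 1) (hBV : BVs θ)
    (hD : ∀ x : ℝ, 2 ≤ x → ∀ r ∈ D x, 1 ≤ r ∧ (r : ℝ) ≤ x)
    {k : ℕ} (h : Fin k → ℕ) (hh : ∀ i, 1 ≤ h i) (Dp b : ℕ) (hL : MT.Large h Dp) (hG : MT.Good h Dp b)
    (m : Fin k) (t t' : Fin k → ℝ)
    (hcond : ∀ᶠ N : ℕ in atTop, ∀ d e : Fin k → ℕ, MT.OK (primorial Dp) m d e →
      (∀ i, i ≠ m → (d i : ℝ) < (N : ℝ) ^ t i ∧ (e i : ℝ) < (N : ℝ) ^ t' i) →
      (primorial Dp * ∏ i, (d i).lcm (e i) ∈ D (N : ℝ) ∨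
        ((primorial Dp * ∏ i, (d i).lcm (e i) : ℕ) : ℝ) ≤ (N : ℝ) ^ θ)) :
    MT.EH h (primorial Dp) b m t t' := by
  intro A
  set W := primorial Dp with hW
  have hW1 : 1 ≤ W := primorial_pos Dp
  have hb : IsCoprime ((b : ℤ) + h m) (W : ℤ) := by
    have := hG m
    rw [← Nat.isCoprime_iff_coprime] at this
    push_cast at this
    exact this
  obtain ⟨C, hC⟩ := vec_bound D hEH θ hθ hBV hD h m W hW1 ((b : ℤ) + h m) hb 4 (by norm_num) (A + 1)
  set H := ∑ i, h i with hH
  have hHi : ∀ i, h i ≤ H := fun i => Finset.single_le_sum (fun _ _ => Nat.zero_le _) (Finset.mem_univ i)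
  have hlogC : ∀ᶠ N : ℕ in atTop, 2 * C ≤ Real.log N :=
    (Real.tendsto_log_atTop.comp tendsto_natCast_atTop_atTop).eventually_ge_atTop (2 * C)
  filter_upwards [hcond, pp_small k H A, eventually_ge_atTop (H + 3), hlogC] with N hN hpp hNH hNC
  have hN3 : (3:ℝ) ≤ N := by exact_mod_cast (show 3 ≤ N by omega)
  have hN0 : (0:ℝ) < N := by linarith
  have hlog0 : 0 < Real.log N := Real.log_pos (by linarith)
  -- the set of pairs
  set S : Finset ((Fin k → ℕ) × (Fin k → ℕ)) := (MT.grid k N ×ˢ MT.grid k N).filter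
    (fun p => MT.OK W m p.1 p.2 ∧
      ∀ i, i ≠ m → (p.1 i : ℝ) < (N : ℝ) ^ t i ∧ (p.2 i : ℝ) < (N : ℝ) ^ t' i) with hS
  have hbox : MT.BoxErr h W b N m t t' = ∑ p ∈ S, MT.Del h W b N m p.1 p.2 := by
    unfold MT.BoxErr
    rw [hS, Finset.sum_filter, Finset.sum_product]
  rw [hbox]
  set y : ℝ := ((N + h m - 1 : ℕ) : ℝ) with hy
  set z : ℝ := ((2 * N + h m - 1 : ℕ) : ℝ) with hz
  have hhm := hh m
  have hHm := hHi m
  have hxy : (N : ℝ) ≤ y := by rw [hy]; exact_mod_cast (show N ≤ N + h m - 1 by omega)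
  have hyz : y ≤ z := by rw [hy, hz]; exact_mod_cast (show N + h m - 1 ≤ 2 * N + h m - 1 by omega)
  have hz3 : z ≤ 3 * N := by rw [hz]; exact_mod_cast (show 2 * N + h m - 1 ≤ 3 * N by omega)
  calc ∑ p ∈ S, MT.Del h W b N m p.1 p.2
      ≤ ∑ p ∈ S, (|VecErr h m W ((b : ℤ) + h m) y z (lcmv p.1 p.2)|
          + ∑ n ∈ Ico N (2 * N), (if (∀ i, i ≠ m → p.1 i ∣ n + h i ∧ p.2 i ∣ n + h i) then ppw (n + h m) else 0)) := by
        apply Finset.sum_le_sum
        intro p hp
        rw [hS, Finset.mem_filter] at hp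
        exact Del_le hL b N (by omega) hp.2.1
    _ = ∑ p ∈ S, |VecErr h m W ((b : ℤ) + h m) y z (lcmv p.1 p.2)|
          + ∑ p ∈ S, ∑ n ∈ Ico N (2 * N),
            (if (∀ i, i ≠ m → p.1 i ∣ n + h i ∧ p.2 i ∣ n + h i) then ppw (n + h m) else 0) := by
        rw [Finset.sum_add_distrib]
    _ ≤ (1 / 2) * ((N : ℝ) / Real.log N ^ A) + (1 / 2) * ((N : ℝ) / Real.log N ^ A) := by
        apply add_le_add
        · rw [Finset.sum_comp (fun q => |VecErr h m W ((b : ℤ) + h m) y z q|)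
            (fun p : (Fin k → ℕ) × (Fin k → ℕ) => lcmv p.1 p.2)]
          have hQok : ∀ q ∈ S.image (fun p : (Fin k → ℕ) × (Fin k → ℕ) => lcmv p.1 p.2), VecOK h m W q := by
            intro q hq
            rw [Finset.mem_image] at hq
            obtain ⟨p, hp, rfl⟩ := hq
            rw [hS, Finset.mem_filter] at hp
            exact vecOK_of_OK hL hp.2.1
          calc ∑ q ∈ S.image (fun p : (Fin k → ℕ) × (Fin k → ℕ) => lcmv p.1 p.2),
                (S.filter (fun p => lcmv p.1 p.2 = q)).card • |VecErr h m W ((b : ℤ) + h m) y z q|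
              ≤ ∑ q ∈ S.image (fun p : (Fin k → ℕ) × (Fin k → ℕ) => lcmv p.1 p.2),
                ((4 : ℕ) : ℝ) ^ (∏ i, q i).primeFactors.card * |VecErr h m W ((b : ℤ) + h m) y z q| := by
                apply Finset.sum_le_sum
                intro q hq
                rw [nsmul_eq_mul]
                apply mul_le_mul_of_nonneg_right _ (abs_nonneg _)
                exact_mod_cast fiber_card (hQok q hq) S
            _ ≤ C * N / Real.log N ^ (A + 1) := by
                apply hC N (by linarith) y z hxy hyz hz3 _ hQok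
                intro q hq
                rw [Finset.mem_image] at hq
                obtain ⟨p, hp, rfl⟩ := hq
                rw [hS, Finset.mem_filter] at hp
                exact hN p.1 p.2 hp.2.1 hp.2.2
            _ ≤ _ := by
                rw [pow_succ, ← div_div, div_le_iff₀ hlog0]
                have h1 : 0 ≤ (N : ℝ) / Real.log N ^ A := by positivity
                have h2 : C ≤ Real.log N / 2 := by linarith
                calc C * N / Real.log N ^ A = C * (N / Real.log N ^ A) := by ring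
                  _ ≤ (Real.log N / 2) * (N / Real.log N ^ A) := by gcongr
                  _ = _ := by ring
        · refine le_trans ?_ hpp
          apply pp_part h m N (2 * N + H) (by omega)
          · intro i
            have := hHi i
            omega
          · intro p hp
            rw [hS, Finset.mem_filter] at hp
            exact ⟨hp.2.1.1, hp.2.1.2.1⟩
    _ = (N : ℝ) / Real.log N ^ A := by ring

lemma BVs_neg : BVs (-1) := by
  intro A
  refine ⟨0, ?_⟩
  intro x hx a y z _ _ _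
  have h1 : ⌊x ^ (-1 : ℝ)⌋₊ = 0 := by
    rw [Nat.floor_eq_zero, Real.rpow_neg_one]
    have : x⁻¹ ≤ 2⁻¹ := inv_anti₀ (by norm_num) hx
    have h2 : (2⁻¹ : ℝ) < 1 := by norm_num
    linarith
  rw [h1]
  simp

open Classical in
/-- G-II with one set of moduli (no separate Bombieri–Vinogradov hypothesis). -/
theorem EH_of1 (D : ℝ → Finset ℕ) (hEH : EHs D)
    (hD : ∀ x : ℝ, 2 ≤ x → ∀ r ∈ D x, 1 ≤ r ∧ (r : ℝ) ≤ x)
    {k : ℕ} (h : Fin k → ℕ) (hh : ∀ i, 1 ≤ h i) (Dp b : ℕ) (hL : MT.Large h Dp) (hG : MT.Good h Dp b)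
    (m : Fin k) (t t' : Fin k → ℝ)
    (hcond : ∀ᶠ N : ℕ in atTop, ∀ d e : Fin k → ℕ, MT.OK (primorial Dp) m d e →
      (∀ i, i ≠ m → (d i : ℝ) < (N : ℝ) ^ t i ∧ (e i : ℝ) < (N : ℝ) ^ t' i) →
      primorial Dp * ∏ i, (d i).lcm (e i) ∈ D (N : ℝ)) :
    MT.EH h (primorial Dp) b m t t' := by
  apply EH_of D hEH (-1) (by norm_num) BVs_neg hD h hh Dp b hL hG m t t'
  filter_upwards [hcond] with N hN d e hok hs
  exact Or.inl (hN d e hok hs)

/-- the vector `lcmv` gives a squarefree modulus -/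
lemma sqf_total {k : ℕ} {h : Fin k → ℕ} {D : ℕ} (hL : MT.Large h D) {m : Fin k}
    {d e : Fin k → ℕ} (hok : MT.OK (primorial D) m d e) :
    Squarefree (primorial D * ∏ i, (d i).lcm (e i)) := by
  have hv := vecOK_of_OK hL hok
  have h1 : Squarefree (primorial D) := squarefree_primorial D
  have h2 : Squarefree (∏ i, lcmv d e i) := by
    apply Finset.squarefree_prod_of_pairwise_isCoprime
    · intro i _ j _ hij
      show IsRelPrime _ _
      rw [← Nat.coprime_iff_isRelPrime]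
      exact hv.cop i j hij
    · intro i _
      exact hv.sqf i
  have h3 : Nat.Coprime (primorial D) (∏ i, lcmv d e i) := by
    apply Nat.Coprime.prod_right
    intro i _
    exact (hv.copW i).symm
  exact (Nat.squarefree_mul h3).2 ⟨h1, h2⟩

end Pool.Agent.BGG
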