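import Pool.Agent.BGG.GAux

/-!
Section 5: Siegel–Walfisz property of the pieces.
-/

namespace Pool.Agent.BGG

open Finset

/-- sum over a class with a coprimality condition -/
noncomputable def Sc (X : ℕ) (f : ℕ → ℝ) (r s : ℕ) (b : ℤ) : ℝ :=
  ∑ n ∈ Icc 1 X, if (r : ℤ) ∣ (n : ℤ) - b ∧ Nat.Coprime n s then f n else 0

/-- sum over the integers coprime to `r*s` -/
noncomputable def Sg (X : ℕ) (f : ℕ → ℝ) (r s : ℕ) : ℝ :=
  ∑ n ∈ Icc 1 X, if Nat.Coprime n (r * s) then f n else 0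

lemma Sg_eq_sum (X : ℕ) (f : ℕ → ℝ) (r s : ℕ) (hr : 1 ≤ r) :
    Sg X f r s = ∑ b ∈ (range r).filter (fun b => Nat.Coprime r b), Sc X f r s (b : ℤ) := by
  unfold Sg Sc
  rw [Finset.sum_comm]
  apply Finset.sum_congr rfl
  intro n _
  by_cases hs : Nat.Coprime n s
  · by_cases hr' : Nat.Coprime n r
    · rw [if_pos (Nat.Coprime.mul_right hr' hs)]
      rw [Finset.sum_eq_single (n % r)]
      · rw [if_pos]
        refine ⟨?_, hs⟩
        push_cast
        exact Int.dvd_self_sub_emod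
      · intro b hb hne
        rw [if_neg]
        rintro ⟨h1, _⟩
        apply hne
        rw [Finset.mem_filter, Finset.mem_range] at hb
        have h2 : ((n:ℤ)) ≡ (b:ℤ) [ZMOD r] := (Int.modEq_iff_dvd.2 (by
          have := (dvd_neg.2 h1); simpa using this))
        have h3 : n ≡ b [MOD r] := (Int.natCast_modEq_iff).1 h2
        have h4 : n % r = b % r := h3
        rw [h4, Nat.mod_eq_of_lt hb.1]
      · intro h
        exfalso
        apply h
        rw [Finset.mem_filter, Finset.mem_range]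
        refine ⟨Nat.mod_lt _ (by omega), ?_⟩
        rw [Nat.Coprime, Nat.gcd_comm, ← Nat.gcd_rec]
        exact hr'.symm
    · rw [if_neg (fun h => hr' (Nat.Coprime.coprime_mul_right_right h))]
      symm
      apply Finset.sum_eq_zero
      intro b hb
      rw [if_neg]
      rintro ⟨h1, _⟩
      apply hr'
      rw [Finset.mem_filter, Finset.mem_range] at hb
      have h2 : ((n:ℤ)) ≡ (b:ℤ) [ZMOD r] := (Int.modEq_iff_dvd.2 (by
        have := (dvd_neg.2 h1); simpa using this))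
      have h3 : n ≡ b [MOD r] := (Int.natCast_modEq_iff).1 h2
      have h4 := h3.gcd_eq
      rw [Nat.Coprime, h4]
      exact hb.2.symm
  · rw [if_neg (fun h => hs (Nat.Coprime.coprime_mul_left_right h))]
    symm
    apply Finset.sum_eq_zero
    intro b _
    rw [if_neg (fun h => hs h.2)]

lemma Sc_sub_avg (X : ℕ) (f : ℕ → ℝ) (r s : ℕ) (b : ℤ) (E : ℝ) (hr : 1 ≤ r)
    (h : ∀ b' : ℕ, Nat.Coprime r b' → |Sc X f r s b - Sc X f r s (b' : ℤ)| ≤ E) :
    |Sc X f r s b - Sg X f r s / (r.totient : ℝ)| ≤ E := by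
  have hφ : (0:ℝ) < r.totient := by exact_mod_cast Nat.totient_pos.2 hr
  rw [Sg_eq_sum X f r s hr]
  set T := (range r).filter (fun b => Nat.Coprime r b) with hT
  have hcard : (T.card : ℝ) = r.totient := by
    rw [Nat.totient_eq_card_coprime]
  have : Sc X f r s b - (∑ b' ∈ T, Sc X f r s (b' : ℤ)) / (r.totient : ℝ)
      = (∑ b' ∈ T, (Sc X f r s b - Sc X f r s (b' : ℤ))) / (r.totient : ℝ) := by
    rw [Finset.sum_sub_distrib, Finset.sum_const, nsmul_eq_mul, hcard, sub_div,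
      mul_div_cancel_left₀ _ hφ.ne']
  rw [this, abs_div, abs_of_pos hφ, div_le_iff₀ hφ]
  calc |∑ b' ∈ T, (Sc X f r s b - Sc X f r s (b' : ℤ))|
      ≤ ∑ b' ∈ T, |Sc X f r s b - Sc X f r s (b' : ℤ)| := Finset.abs_sum_le_sum_abs _ _
    _ ≤ ∑ _b' ∈ T, E := by
        apply Finset.sum_le_sum
        intro b' hb'
        rw [hT, Finset.mem_filter] at hb'
        exact h b' hb'.2
    _ = E * r.totient := by rw [Finset.sum_const, nsmul_eq_mul, hcard, mul_comm]

/-- Prefix discrepancies of `f` between two classes. -/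
def PD (f : ℕ → ℝ) (K : ℕ → ℝ) : Prop :=
  ∀ (j : ℕ) (x N : ℝ), 2 ≤ x → x ^ (1 / 10 : ℝ) ≤ 4 * N → N ≤ 4 * x → ∀ n : ℕ, (n : ℝ) ≤ 4 * N →
    ∀ (r s : ℕ) (b b' : ℤ), 1 ≤ r → 1 ≤ s → IsCoprime b (r : ℤ) → IsCoprime b' (r : ℤ) →
      |Sc n f r s b - Sc n f r s b'| ≤ K j * (s.divisors.card : ℝ) * N / (Real.log x) ^ j

lemma SW_iff (K : ℕ → ℝ) (x N : ℝ) (β : ℕ → ℝ) : SW K x N β ↔
    ∀ (j r s : ℕ) (b : ℤ), 1 ≤ r → 1 ≤ s → IsCoprime b (r : ℤ) →
      |Sc ⌊4 * N⌋₊ β r s b - Sg ⌊4 * N⌋₊ β r s / (r.totient : ℝ)|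
        ≤ K j * (s.divisors.card : ℝ) * N / (Real.log x) ^ j := Iff.rfl

/-- restriction to `(A1, A2]` -/
noncomputable def rs (A1 A2 : ℕ) (f : ℕ → ℝ) (n : ℕ) : ℝ := if A1 < n ∧ n ≤ A2 then f n else 0

lemma Sc_rs (f : ℕ → ℝ) (A1 A2 X : ℕ) (h12 : A1 ≤ A2) (h2 : A2 ≤ X) (r s : ℕ) (b : ℤ) :
    Sc X (rs A1 A2 f) r s b = Sc A2 f r s b - Sc A1 f r s b := by
  unfold Sc
  have h1 : ∑ n ∈ Icc 1 X, (if (r : ℤ) ∣ (n : ℤ) - b ∧ Nat.Coprime n s then rs A1 A2 f n else 0)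
      = ∑ n ∈ Ioc A1 A2, (if (r : ℤ) ∣ (n : ℤ) - b ∧ Nat.Coprime n s then f n else 0) := by
    symm
    have hsub : Ioc A1 A2 ⊆ Icc 1 X := by
      intro n hn
      rw [Finset.mem_Ioc] at hn
      rw [Finset.mem_Icc]
      omega
    rw [← Finset.sum_subset hsub (f := fun n : ℕ => (if (r : ℤ) ∣ (n : ℤ) - b ∧ Nat.Coprime n s then rs A1 A2 f n else 0))]
    · apply Finset.sum_congr rfl
      intro n hn
      rw [Finset.mem_Ioc] at hn
      have : rs A1 A2 f n = f n := by unfold rs; rw [if_pos hn]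
      rw [this]
    · intro n _ hn
      rw [Finset.mem_Ioc] at hn
      have : rs A1 A2 f n = 0 := by unfold rs; rw [if_neg hn]
      rw [this]
      simp
  rw [h1]
  have h3 : Icc 1 A2 = Icc 1 A1 ∪ Ioc A1 A2 := by
    ext n
    rw [Finset.mem_union, Finset.mem_Icc, Finset.mem_Icc, Finset.mem_Ioc]
    omega
  rw [h3, Finset.sum_union]
  · ring
  · rw [Finset.disjoint_left]
    intro n h1 h2
    rw [Finset.mem_Icc] at h1
    rw [Finset.mem_Ioc] at h2
    omega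

/-- Dirichlet convolution of two sequences -/
noncomputable def cnv (β1 β2 : ℕ → ℝ) (n : ℕ) : ℝ :=
  ∑ p ∈ n.divisorsAntidiagonal, β1 p.1 * β2 p.2

lemma sum_cnv (β1 β2 : ℕ → ℝ) (X : ℕ) (P : ℕ → Prop) [DecidablePred P]
    (hP : ∀ n, P n → n ≤ X) :
    ∑ n ∈ Icc 1 X, (if P n then cnv β1 β2 n else 0)
      = ∑ c ∈ Icc 1 X, β2 c * ∑ a ∈ Icc 1 X, (if P (a * c) then β1 a else 0) := by
  classical
  have hL : ∑ n ∈ Icc 1 X, (if P n then cnv β1 β2 n else 0)
      = ∑ q ∈ (Icc 1 X).sigma (fun n => n.divisorsAntidiagonal),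
          (if P (q.2.1 * q.2.2) then β1 q.2.1 * β2 q.2.2 else 0) := by
    rw [Finset.sum_sigma]
    apply Finset.sum_congr rfl
    intro n _
    unfold cnv
    split_ifs with h
    · apply Finset.sum_congr rfl
      intro p hp
      rw [Nat.mem_divisorsAntidiagonal] at hp
      simp only [hp.1, h, if_true]
    · symm
      apply Finset.sum_eq_zero
      intro p hp
      rw [Nat.mem_divisorsAntidiagonal] at hp
      simp only [hp.1, h, if_false]
  have hR : ∑ c ∈ Icc 1 X, β2 c * ∑ a ∈ Icc 1 X, (if P (a * c) then β1 a else 0)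
      = ∑ q ∈ (Icc 1 X) ×ˢ (Icc 1 X), (if P (q.1 * q.2) then β1 q.1 * β2 q.2 else 0) := by
    rw [Finset.sum_product_right]
    apply Finset.sum_congr rfl
    intro c _
    rw [Finset.mul_sum]
    apply Finset.sum_congr rfl
    intro a _
    split_ifs
    · ring
    · ring
  rw [hL, hR]
  apply Finset.sum_bij_ne_zero (fun q _ _ => q.2)
  · intro q hq hne
    rw [Finset.mem_sigma, Finset.mem_Icc, Nat.mem_divisorsAntidiagonal] at hq
    rw [Finset.mem_product, Finset.mem_Icc, Finset.mem_Icc]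
    have hq0 : q.1 ≠ 0 := hq.2.2
    have e1 : q.2.1 ≠ 0 := fun h => hq0 (by rw [← hq.2.1, h, zero_mul])
    have e2 : q.2.2 ≠ 0 := fun h => hq0 (by rw [← hq.2.1, h, mul_zero])
    refine ⟨⟨by omega, ?_⟩, ⟨by omega, ?_⟩⟩
    · exact (Nat.le_of_dvd (by omega) (Dvd.intro _ hq.2.1)).trans hq.1.2
    · exact (Nat.le_of_dvd (by omega) (Dvd.intro_left _ hq.2.1)).trans hq.1.2
  · intro q hq _ q' hq' _ he
    rw [Finset.mem_sigma, Nat.mem_divisorsAntidiagonal] at hq hq'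
    rcases q with ⟨n, p⟩
    rcases q' with ⟨n', p'⟩
    simp only at he hq hq'
    subst he
    have : n = n' := by rw [← hq.2.1, ← hq'.2.1]
    subst this
    rfl
  · intro p hp hne
    rw [Finset.mem_product, Finset.mem_Icc, Finset.mem_Icc] at hp
    have h3 : p.1 * p.2 ≤ X := by
      by_contra hcon
      apply hne
      rw [if_neg (fun h => hcon (hP _ h))]
    have h4 : 1 ≤ p.1 * p.2 := Nat.one_le_iff_ne_zero.2 (by
      apply mul_ne_zero <;> omega)
    refine ⟨⟨p.1 * p.2, p⟩, ?_, hne, rfl⟩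
    rw [Finset.mem_sigma, Finset.mem_Icc, Nat.mem_divisorsAntidiagonal]
    exact ⟨⟨h4, h3⟩, rfl, (show p.1 * p.2 ≠ 0 by omega)⟩
  · intro q _ _; rfl

end Pool.Agent.BGG
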