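import Pool.Agent.BGG.SWp

/-!
Prefix discrepancies of `1`, `μ`, `Λ`.
-/

namespace Pool.Agent.BGG

open Finset

/-- the number of integers of `(0,n]` in a class modulo `q`, up to 1 -/
lemma card_class_int (n q : ℕ) (hq : 1 ≤ q) (c : ℤ) :
    ∃ z : ℤ, (∑ m ∈ Icc 1 n, (if (q : ℤ) ∣ (m : ℤ) - c then (1:ℝ) else 0)) = z ∧
      (n : ℤ) - q < z * q ∧ z * q < (n : ℤ) + q := by
  have hq0 : (0:ℤ) < q := by exact_mod_cast hq
  have hqq : (0:ℚ) < ((q:ℤ):ℚ) := by exact_mod_cast hq0
  have e2 := Int.Ioc_filter_modEq_card (0:ℤ) (n:ℤ) (r := (q:ℤ)) hq0 c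
  set z1 := ⌊((((n:ℤ):ℚ)) - c) / ((q:ℤ):ℚ)⌋ with hz1
  set z2 := ⌊((((0:ℤ):ℚ)) - c) / ((q:ℤ):ℚ)⌋ with hz2
  have g1 : z1 * q ≤ (n:ℤ) - c := by
    have f1 : (z1:ℚ) ≤ (((n:ℤ):ℚ) - c) / ((q:ℤ):ℚ) := Int.floor_le _
    rw [le_div_iff₀ hqq] at f1
    exact_mod_cast f1
  have g2 : (n:ℤ) - c < (z1 + 1) * q := by
    have f1 : (((n:ℤ):ℚ) - c) / ((q:ℤ):ℚ) < (z1:ℚ) + 1 := Int.lt_floor_add_one _
    rw [div_lt_iff₀ hqq] at f1
    exact_mod_cast f1
  have g3 : z2 * q ≤ - c := by
    have f1 : (z2:ℚ) ≤ (((0:ℤ):ℚ) - c) / ((q:ℤ):ℚ) := Int.floor_le _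
    rw [le_div_iff₀ hqq] at f1
    have f2 : z2 * q ≤ 0 - c := by exact_mod_cast f1
    linarith
  have g4 : - c < (z2 + 1) * q := by
    have f1 : (((0:ℤ):ℚ) - c) / ((q:ℤ):ℚ) < (z2:ℚ) + 1 := Int.lt_floor_add_one _
    rw [div_lt_iff₀ hqq] at f1
    have f2 : 0 - c < (z2 + 1) * q := by exact_mod_cast f1
    linarith
  have hmono : z2 ≤ z1 := by
    apply Int.floor_le_floor
    gcongr
    exact_mod_cast Nat.zero_le n
  refine ⟨z1 - z2, ?_, ?_, ?_⟩
  · have e1 : (∑ m ∈ Icc 1 n, (if (q : ℤ) ∣ (m : ℤ) - c then (1:ℝ) else 0))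
        = (((Ioc (0:ℤ) (n:ℤ)).filter (fun x => x ≡ c [ZMOD q])).card : ℝ) := by
      rw [← Finset.sum_filter, Finset.sum_const, nsmul_eq_mul, mul_one]
      congr 1
      apply Finset.card_bij (fun (m : ℕ) _ => (m : ℤ))
      · intro m hm
        rw [Finset.mem_filter, Finset.mem_Icc] at hm
        rw [Finset.mem_filter, Finset.mem_Ioc]
        refine ⟨⟨by omega, by omega⟩, ?_⟩
        apply Int.ModEq.symm
        rw [Int.modEq_iff_dvd]
        exact hm.2
      · intro a _ b _ hab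
        exact_mod_cast hab
      · intro x hx
        rw [Finset.mem_filter, Finset.mem_Ioc] at hx
        refine ⟨x.toNat, ?_, Int.toNat_of_nonneg (by omega)⟩
        rw [Finset.mem_filter, Finset.mem_Icc, Int.toNat_of_nonneg (by omega)]
        refine ⟨⟨by omega, by omega⟩, ?_⟩
        exact hx.2.symm.dvd
    rw [e1]
    have e3 : (((Ioc (0:ℤ) (n:ℤ)).filter (fun x => x ≡ c [ZMOD q])).card : ℤ) = z1 - z2 := by
      rw [e2, max_eq_left (by linarith)]
    exact_mod_cast congrArg (fun z : ℤ => (z : ℝ)) e3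
  · nlinarith
  · nlinarith

/-- two classes modulo `q` contain almost the same number of integers of `[1,n]` -/
lemma card_diff_le (n q : ℕ) (hq : 1 ≤ q) (c c' : ℤ) :
    |(∑ m ∈ Icc 1 n, (if (q : ℤ) ∣ (m : ℤ) - c then (1:ℝ) else 0))
      - (∑ m ∈ Icc 1 n, (if (q : ℤ) ∣ (m : ℤ) - c' then (1:ℝ) else 0))| ≤ 1 := by
  have hq0 : (0:ℤ) < q := by exact_mod_cast hq
  obtain ⟨z, hz, hz1, hz2⟩ := card_class_int n q hq c
  obtain ⟨z', hz', hz1', hz2'⟩ := card_class_int n q hq c'
  rw [hz, hz']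
  have h3 : z - z' < 2 := by
    have : (z - z') * q < 2 * q := by nlinarith
    exact lt_of_mul_lt_mul_right this hq0.le
  have h4 : -2 < z - z' := by
    have : -2 * (q:ℤ) < (z - z') * q := by nlinarith
    exact lt_of_mul_lt_mul_right this hq0.le
  rw [abs_le]
  constructor
  · have : (-1 : ℤ) ≤ z - z' := by omega
    exact_mod_cast this
  · have : z - z' ≤ (1 : ℤ) := by omega
    exact_mod_cast this

/-- the same with a divisibility condition, classes coprime to `r` -/
lemma card_diff_dvd (n r d : ℕ) (hr : 1 ≤ r) (hd : 1 ≤ d) (b b' : ℤ) (hb : IsCoprime b (r : ℤ))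
    (hb' : IsCoprime b' (r : ℤ)) :
    |(∑ m ∈ Icc 1 n, (if (r : ℤ) ∣ (m : ℤ) - b ∧ d ∣ m then (1:ℝ) else 0))
      - (∑ m ∈ Icc 1 n, (if (r : ℤ) ∣ (m : ℤ) - b' ∧ d ∣ m then (1:ℝ) else 0))| ≤ 1 := by
  by_cases hdr : Nat.Coprime d r
  · have key : ∀ b : ℤ, ∃ c : ℤ, ∀ m : ℕ, ((r : ℤ) ∣ (m : ℤ) - b ∧ d ∣ m) ↔
        ((r * d : ℕ) : ℤ) ∣ (m : ℤ) - c := by
      intro b
      have hco : IsCoprime (d : ℤ) (r : ℤ) := by rw [Nat.isCoprime_iff_coprime]; exact hdr
      obtain ⟨u, v, huv⟩ := id hco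
      refine ⟨d * (u * b), fun m => ?_⟩
      have hc : (r : ℤ) ∣ (d : ℤ) * (u * b) - b := ⟨-(v * b), by linear_combination b * huv⟩
      constructor
      · rintro ⟨h1, h2⟩
        push_cast
        apply IsCoprime.mul_dvd hco.symm
        · have := dvd_sub h1 hc
          simpa using this
        · exact dvd_sub (Int.natCast_dvd_natCast.2 h2) (dvd_mul_right _ _)
      · intro h
        push_cast at h
        have h1 : (r : ℤ) ∣ (m : ℤ) - d * (u * b) := (dvd_mul_right _ _).trans h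
        have h2 : (d : ℤ) ∣ (m : ℤ) - d * (u * b) := (dvd_mul_left _ _).trans h
        refine ⟨?_, ?_⟩
        · have := dvd_add h1 hc
          simpa using this
        · have := dvd_add h2 (dvd_mul_right (d : ℤ) (u * b))
          rw [sub_add_cancel] at this
          exact Int.natCast_dvd_natCast.1 this
    obtain ⟨c, hc⟩ := key b
    obtain ⟨c', hc'⟩ := key b'
    simp only [hc, hc']
    exact card_diff_le n (r * d) (Nat.one_le_iff_ne_zero.2 (by
      apply mul_ne_zero <;> omega)) c c'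
  · have key : ∀ b : ℤ, IsCoprime b (r : ℤ) →
        (∑ m ∈ Icc 1 n, (if (r : ℤ) ∣ (m : ℤ) - b ∧ d ∣ m then (1:ℝ) else 0)) = 0 := by
      intro b hb
      apply Finset.sum_eq_zero
      intro m _
      rw [if_neg]
      rintro ⟨⟨w, hw⟩, h2⟩
      apply hdr
      have h3 : IsCoprime (m : ℤ) (r : ℤ) := by
        have : (m : ℤ) = b + (r : ℤ) * w := by linarith
        rw [this]
        exact (IsCoprime.add_mul_left_left_iff).2 hb
      rw [Nat.isCoprime_iff_coprime] at h3
      exact Nat.Coprime.coprime_dvd_left h2 h3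
    rw [key b hb, key b' hb']
    norm_num

/-- Moebius inversion of a coprimality condition -/
lemma coprime_sum (m s : ℕ) (hm : 1 ≤ m) (hs : 1 ≤ s) :
    (if Nat.Coprime m s then (1:ℝ) else 0)
      = ∑ d ∈ s.divisors, (if d ∣ m then ((ArithmeticFunction.moebius d : ℤ) : ℝ) else 0) := by
  have h1 : ∑ d ∈ (Nat.gcd m s).divisors, ArithmeticFunction.moebius d = if Nat.gcd m s = 1 then (1:ℤ) else 0 := by
    have h2 := congrArg (fun f : ArithmeticFunction ℤ => f (Nat.gcd m s)) ArithmeticFunction.moebius_mul_coe_zeta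
    simp only [ArithmeticFunction.coe_mul_zeta_apply, ArithmeticFunction.one_apply] at h2
    exact h2
  have h3 : (Nat.gcd m s).divisors = s.divisors.filter (fun d => d ∣ m) := by
    ext d
    rw [Nat.mem_divisors, Finset.mem_filter, Nat.mem_divisors]
    constructor
    · rintro ⟨h4, _⟩
      exact ⟨⟨h4.trans (Nat.gcd_dvd_right _ _), by omega⟩, h4.trans (Nat.gcd_dvd_left _ _)⟩
    · rintro ⟨⟨h4, _⟩, h5⟩
      exact ⟨Nat.dvd_gcd h5 h4, (Nat.gcd_pos_of_pos_left _ (by omega)).ne'⟩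
  rw [h3, Finset.sum_filter] at h1
  have h4 := congrArg (fun z : ℤ => (z : ℝ)) h1
  simp only [Int.cast_sum] at h4
  rw [show (if Nat.Coprime m s then (1:ℝ) else 0) = (((if Nat.gcd m s = 1 then (1:ℤ) else 0) : ℤ) : ℝ) by
    unfold Nat.Coprime; split_ifs <;> simp, ← h4]
  apply Finset.sum_congr rfl
  intro d _
  split_ifs <;> simp

/-- prefix discrepancy of `1` -/
lemma one_diff (n r s : ℕ) (b b' : ℤ) (hr : 1 ≤ r) (hs : 1 ≤ s) (hb : IsCoprime b (r : ℤ))
    (hb' : IsCoprime b' (r : ℤ)) :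
    |Sc n (fun _ => 1) r s b - Sc n (fun _ => 1) r s b'| ≤ (s.divisors.card : ℝ) := by
  have key : ∀ b : ℤ, Sc n (fun _ => 1) r s b = ∑ d ∈ s.divisors,
      ((ArithmeticFunction.moebius d : ℤ) : ℝ) *
        ∑ m ∈ Icc 1 n, (if (r : ℤ) ∣ (m : ℤ) - b ∧ d ∣ m then (1:ℝ) else 0) := by
    intro b
    unfold Sc
    simp_rw [Finset.mul_sum]
    rw [Finset.sum_comm]
    apply Finset.sum_congr rfl
    intro m hm
    rw [Finset.mem_Icc] at hm
    by_cases h1 : (r : ℤ) ∣ (m : ℤ) - b
    · have := coprime_sum m s hm.1 hs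
      simp only [h1, true_and]
      rw [this]
      apply Finset.sum_congr rfl
      intro d _
      split_ifs <;> simp
    · simp [h1]
  rw [key b, key b', ← Finset.sum_sub_distrib]
  calc |∑ d ∈ s.divisors, (((ArithmeticFunction.moebius d : ℤ) : ℝ) *
        ∑ m ∈ Icc 1 n, (if (r : ℤ) ∣ (m : ℤ) - b ∧ d ∣ m then (1:ℝ) else 0)
        - ((ArithmeticFunction.moebius d : ℤ) : ℝ) *
        ∑ m ∈ Icc 1 n, (if (r : ℤ) ∣ (m : ℤ) - b' ∧ d ∣ m then (1:ℝ) else 0))|
      ≤ ∑ _d ∈ s.divisors, (1:ℝ) := by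
        refine (Finset.abs_sum_le_sum_abs _ _).trans (Finset.sum_le_sum ?_)
        intro d hd
        rw [← mul_sub, abs_mul]
        have h1 : |((ArithmeticFunction.moebius d : ℤ) : ℝ)| ≤ 1 := by
          have := ArithmeticFunction.abs_moebius_le_one (n := d)
          exact_mod_cast this
        have h2 := card_diff_dvd n r d hr (Nat.pos_of_mem_divisors hd) b b' hb hb'
        calc _ ≤ 1 * 1 := mul_le_mul h1 h2 (abs_nonneg _) (by norm_num)
          _ = 1 := by norm_num
    _ = _ := by simp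

/-- `x^(1/20) (log x)^j ≤ c x^(1/10)` -/
lemma log_pow_le (j : ℕ) {x : ℝ} (hx : 2 ≤ x) :
    x ^ (1 / 20 : ℝ) * Real.log x ^ j ≤ (20 * (j + 1 : ℝ)) ^ j * x ^ (1 / 10 : ℝ) := by
  have hx0 : 0 < x := by linarith
  have hx1 : 1 ≤ x := by linarith
  have hL : 0 ≤ Real.log x := Real.log_nonneg hx1
  have he : (0:ℝ) < 1 / (20 * (j + 1)) := by positivity
  have h1 := Real.log_le_rpow_div hx0.le he
  have h2 : Real.log x ≤ 20 * (j + 1) * x ^ (1 / (20 * (j + 1 : ℝ))) := by
    calc Real.log x ≤ x ^ (1 / (20 * (j + 1 : ℝ))) / (1 / (20 * (j + 1))) := h1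
      _ = _ := by field_simp
  calc x ^ (1 / 20 : ℝ) * Real.log x ^ j
      ≤ x ^ (1 / 20 : ℝ) * (20 * (j + 1) * x ^ (1 / (20 * (j + 1 : ℝ)))) ^ j := by gcongr
    _ = (20 * (j + 1 : ℝ)) ^ j * (x ^ (1 / 20 : ℝ) * x ^ ((1 / (20 * (j + 1 : ℝ))) * j)) := by
        rw [mul_pow, Real.rpow_mul_natCast hx0.le]; ring
    _ = (20 * (j + 1 : ℝ)) ^ j * x ^ (1 / 20 + (1 / (20 * (j + 1 : ℝ))) * j) := by
        rw [Real.rpow_add hx0]
    _ ≤ _ := by
        have h3 : (1 / (20 * (j + 1 : ℝ))) * j ≤ 1 / 20 := by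
          rw [div_mul_eq_mul_div, one_mul, div_le_div_iff₀ (by positivity) (by norm_num)]
          nlinarith
        apply mul_le_mul_of_nonneg_left _ (by positivity)
        exact Real.rpow_le_rpow_of_exponent_le hx1 (by linarith)

lemma tau_ge_one {s : ℕ} (hs : 1 ≤ s) : (1:ℝ) ≤ s.divisors.card := by
  have : 0 < s.divisors.card := Finset.card_pos.2 ⟨1, Nat.one_mem_divisors.2 (by omega)⟩
  exact_mod_cast this

lemma Sc_abs_le (n : ℕ) (f : ℕ → ℝ) (F : ℝ) (_hF : 0 ≤ F) (hf : ∀ m ∈ Icc 1 n, |f m| ≤ F) (r s : ℕ) (b : ℤ) :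
    |Sc n f r s b| ≤ n * F := by
  unfold Sc
  calc |∑ m ∈ Icc 1 n, (if (r : ℤ) ∣ (m : ℤ) - b ∧ Nat.Coprime m s then f m else 0)|
      ≤ ∑ m ∈ Icc 1 n, F := by
        refine (Finset.abs_sum_le_sum_abs _ _).trans (Finset.sum_le_sum ?_)
        intro m hm
        split_ifs
        · exact hf m hm
        · rw [abs_zero]; exact _hF
    _ = n * F := by rw [Finset.sum_const, Nat.card_Icc, nsmul_eq_mul]; simp

/-- constants -/
noncomputable def cc (j : ℕ) : ℝ := (20 * (j + 1 : ℝ)) ^ j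

lemma cc_pos (j : ℕ) : 0 < cc j := by unfold cc; positivity

/-- `x^(1/20) ≤ 4 c_j N / (log x)^j` -/
lemma small_le (j : ℕ) {x N : ℝ} (hx : 2 ≤ x) (hN : x ^ (1 / 10 : ℝ) ≤ 4 * N) :
    x ^ (1 / 20 : ℝ) ≤ 4 * cc j * N / Real.log x ^ j := by
  have hL : 0 < Real.log x := Real.log_pos (by linarith)
  rw [le_div_iff₀ (by positivity)]
  calc x ^ (1 / 20 : ℝ) * Real.log x ^ j ≤ cc j * x ^ (1 / 10 : ℝ) := log_pow_le j hx
    _ ≤ cc j * (4 * N) := by
        have := cc_pos j
        gcongr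
    _ = _ := by ring

lemma PD_one : PD (fun _ => 1) (fun j => 4 * cc j) := by
  intro j x N hx hN _ n _ r s b b' hr hs hb hb'
  have h1 := one_diff n r s b b' hr hs hb hb'
  have h2 := small_le j hx hN
  have h3 : (1:ℝ) ≤ x ^ (1 / 20 : ℝ) := Real.one_le_rpow (by linarith) (by norm_num)
  have hτ := tau_ge_one hs
  calc _ ≤ (s.divisors.card : ℝ) := h1
    _ ≤ (s.divisors.card : ℝ) * (4 * cc j * N / Real.log x ^ j) := by
        have : 1 ≤ 4 * cc j * N / Real.log x ^ j := h3.trans h2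
        nlinarith
    _ = _ := by ring

/-- the moebius function as a real sequence -/
noncomputable def mur (n : ℕ) : ℝ := ((ArithmeticFunction.moebius n : ℤ) : ℝ)

/-- von Mangoldt as a real sequence -/
noncomputable def vmr (n : ℕ) : ℝ := ArithmeticFunction.vonMangoldt n

lemma abs_mur_le (n : ℕ) : |mur n| ≤ 1 := by
  unfold mur
  have := ArithmeticFunction.abs_moebius_le_one (n := n)
  exact_mod_cast this

lemma log_n_ge {x : ℝ} (hx : 2 ≤ x) {n : ℕ} (hn : x ^ (1 / 20 : ℝ) < n) :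
    2 ≤ n ∧ Real.log x ≤ 20 * Real.log n := by
  have hx0 : 0 < x := by linarith
  have h1 : (1:ℝ) ≤ x ^ (1 / 20 : ℝ) := Real.one_le_rpow (by linarith) (by norm_num)
  have h2 : (1:ℝ) < n := lt_of_le_of_lt h1 hn
  refine ⟨by exact_mod_cast h2, ?_⟩
  have h3 := Real.log_le_log (by positivity) hn.le
  rw [Real.log_rpow hx0] at h3
  linarith

lemma PD_mu (hmu : SWmu) : ∃ K : ℕ → ℝ, (∀ j, 0 ≤ K j) ∧ PD mur K := by
  choose C hC using hmu
  refine ⟨fun j => 2 * (4 * |C j| * 20 ^ j) + 2 * (4 * cc j), fun j => ?_, ?_⟩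
  · have := cc_pos j
    positivity
  intro j x N hx hN _ n hn r s b b' hr hs hb hb'
  have hL : 0 < Real.log x := Real.log_pos (by linarith)
  have hN0 : 0 ≤ N := by
    have : 0 ≤ x ^ (1 / 10 : ℝ) := by positivity
    linarith
  have hτ := tau_ge_one hs
  have hcc := cc_pos j
  have key : ∀ b : ℤ, IsCoprime b (r : ℤ) →
      |Sc n mur r s b| ≤ (4 * |C j| * 20 ^ j + 4 * cc j) * (s.divisors.card : ℝ) * N / Real.log x ^ j := by
    intro b hb
    have hA : 0 ≤ 4 * |C j| * 20 ^ j * (s.divisors.card : ℝ) * N / Real.log x ^ j := by positivity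
    have hB : 0 ≤ 4 * cc j * (s.divisors.card : ℝ) * N / Real.log x ^ j := by positivity
    have hsplit : (4 * |C j| * 20 ^ j + 4 * cc j) * (s.divisors.card : ℝ) * N / Real.log x ^ j
        = 4 * |C j| * 20 ^ j * (s.divisors.card : ℝ) * N / Real.log x ^ j
          + 4 * cc j * (s.divisors.card : ℝ) * N / Real.log x ^ j := by ring
    rw [hsplit]
    by_cases hcase : x ^ (1 / 20 : ℝ) < n
    · obtain ⟨hn2, hlog⟩ := log_n_ge hx hcase
      have h1 := hC j n (by exact_mod_cast hn2) r s b hr hs hb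
      rw [Nat.floor_natCast] at h1
      have hln : 0 < Real.log n := by linarith
      have h2 : |Sc n mur r s b| ≤ C j * (s.divisors.card : ℝ) * n / Real.log n ^ j := h1
      refine (h2.trans ?_).trans (le_add_of_nonneg_right hB)
      calc C j * (s.divisors.card : ℝ) * n / Real.log n ^ j
          ≤ |C j| * (s.divisors.card : ℝ) * (4 * N) / (Real.log x / 20) ^ j := by
            gcongr
            · exact le_abs_self _
            · linarith
        _ = _ := by rw [div_pow]; field_simp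
    · push Not at hcase
      refine le_trans ?_ (le_add_of_nonneg_left hA)
      have h1 := Sc_abs_le n mur 1 (by norm_num) (fun m _ => abs_mur_le m) r s b
      have h2 := small_le j hx hN
      calc |Sc n mur r s b| ≤ n * 1 := h1
        _ ≤ x ^ (1 / 20 : ℝ) := by linarith
        _ ≤ 4 * cc j * N / Real.log x ^ j := h2
        _ ≤ (s.divisors.card : ℝ) * (4 * cc j * N / Real.log x ^ j) :=
            le_mul_of_one_le_left (by positivity) hτ
        _ = _ := by ring
  calc |Sc n mur r s b - Sc n mur r s b'| ≤ |Sc n mur r s b| + |Sc n mur r s b'| := abs_sub _ _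
    _ ≤ _ := add_le_add (key b hb) (key b' hb')
    _ = _ := by ring

/-- prime powers dividing something: `∑_{m ≤ n, p ∣ m} Λ(m) ≤ log n` -/
lemma vm_prime_sum (n p : ℕ) (hp : p.Prime) (hn : 1 ≤ n) :
    ∑ m ∈ Icc 1 n, (if p ∣ m then vmr m else 0) ≤ Real.log n := by
  have h1 : ∑ m ∈ Icc 1 n, (if p ∣ m then vmr m else 0)
      ≤ ∑ d ∈ (p ^ Nat.log p n).divisors, vmr d := by
    rw [← Finset.sum_filter]
    calc ∑ m ∈ (Icc 1 n).filter (fun m => p ∣ m), vmr m
        = ∑ m ∈ ((Icc 1 n).filter (fun m => p ∣ m)).filter (fun m => vmr m ≠ 0), vmr m := by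
          rw [Finset.sum_filter_ne_zero]
      _ ≤ _ := by
          apply Finset.sum_le_sum_of_subset_of_nonneg
          · intro m hm
            rw [Finset.mem_filter, Finset.mem_filter, Finset.mem_Icc] at hm
            obtain ⟨⟨⟨h2, h3⟩, h4⟩, h5⟩ := hm
            have h6 : IsPrimePow m := by
              by_contra h7
              exact h5 (by unfold vmr; exact ArithmeticFunction.vonMangoldt_eq_zero_iff.2 h7)
            obtain ⟨q, k, hq, hk, rfl⟩ := (isPrimePow_nat_iff _).1 h6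
            have h7 : p = q := (Nat.prime_dvd_prime_iff_eq hp hq).1 (hp.dvd_of_dvd_pow h4)
            subst h7
            rw [Nat.mem_divisors]
            refine ⟨pow_dvd_pow _ ?_, pow_ne_zero _ hp.ne_zero⟩
            exact Nat.le_log_of_pow_le hp.one_lt h3
          · intro d _ _
            exact ArithmeticFunction.vonMangoldt_nonneg
  refine h1.trans ?_
  have h2 : ∑ d ∈ (p ^ Nat.log p n).divisors, vmr d = Real.log ((p ^ Nat.log p n : ℕ) : ℝ) :=
    ArithmeticFunction.vonMangoldt_sum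
  rw [h2]
  apply Real.log_le_log
  · exact_mod_cast pow_pos hp.pos _
  · exact_mod_cast Nat.pow_log_le_self p (by omega)

lemma vm_noncop_sum (n s : ℕ) (hn : 1 ≤ n) (hs : 1 ≤ s) :
    ∑ m ∈ Icc 1 n, (if Nat.Coprime m s then 0 else vmr m) ≤ (s.divisors.card : ℝ) * Real.log n := by
  have hln : 0 ≤ Real.log n := Real.log_natCast_nonneg n
  calc ∑ m ∈ Icc 1 n, (if Nat.Coprime m s then 0 else vmr m)
      ≤ ∑ m ∈ Icc 1 n, ∑ p ∈ s.primeFactors, (if p ∣ m then vmr m else 0) := by
        apply Finset.sum_le_sum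
        intro m _
        have hnn : ∀ p ∈ s.primeFactors, 0 ≤ (if p ∣ m then vmr m else 0) := by
          intro p _
          split_ifs
          · exact ArithmeticFunction.vonMangoldt_nonneg
          · exact le_rfl
        split_ifs with h
        · exact Finset.sum_nonneg hnn
        · obtain ⟨p, hp, hpm, hps⟩ := Nat.Prime.not_coprime_iff_dvd.1 h
          have hmem : p ∈ s.primeFactors := Nat.mem_primeFactors.2 ⟨hp, hps, by omega⟩
          have := Finset.single_le_sum hnn hmem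
          rwa [if_pos hpm] at this
    _ = ∑ p ∈ s.primeFactors, ∑ m ∈ Icc 1 n, (if p ∣ m then vmr m else 0) := Finset.sum_comm
    _ ≤ ∑ _p ∈ s.primeFactors, Real.log n := by
        apply Finset.sum_le_sum
        intro p hp
        exact vm_prime_sum n p (Nat.prime_of_mem_primeFactors hp) hn
    _ = (s.primeFactors.card : ℝ) * Real.log n := by rw [Finset.sum_const, nsmul_eq_mul]
    _ ≤ _ := by
        gcongr
        intro p hp
        exact Nat.mem_divisors.2 ⟨Nat.dvd_of_mem_primeFactors hp, by omega⟩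

lemma PD_lam (hLam : SWLam) : ∃ K : ℕ → ℝ, (∀ j, 0 ≤ K j) ∧ PD vmr K := by
  choose C hC using hLam
  refine ⟨fun j => 2 * (4 * |C j| * 20 ^ j) + 40 * cc (j + 1) + 2 * (4 * cc (j + 1)), fun j => ?_, ?_⟩
  · have := cc_pos (j + 1)
    positivity
  intro j x N hx hN hN4 n hn r s b b' hr hs hb hb'
  have hL : 0 < Real.log x := Real.log_pos (by linarith)
  have hN0 : 0 ≤ N := by
    have : 0 ≤ x ^ (1 / 10 : ℝ) := by positivity
    linarith
  have hτ := tau_ge_one hs
  have hcc := cc_pos (j + 1)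
  have hsm := small_le (j + 1) hx hN
  have hx20 : (1:ℝ) ≤ x ^ (1 / 20 : ℝ) := Real.one_le_rpow (by linarith) (by norm_num)
  -- log n ≤ 5 log x
  have hlog5 : Real.log n ≤ 5 * Real.log x := by
    rcases Nat.eq_zero_or_pos n with h0 | h0
    · rw [h0]; simp; positivity
    have hn0 : (0:ℝ) < n := by exact_mod_cast h0
    have h2 : Real.log 2 ≤ Real.log x := Real.log_le_log (by norm_num) hx
    calc Real.log n ≤ Real.log (16 * x) := Real.log_le_log hn0 (by linarith)
      _ = 4 * Real.log 2 + Real.log x := by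
          rw [Real.log_mul (by norm_num) (by linarith), show (16:ℝ) = 2 ^ 4 by norm_num, Real.log_pow]
          push_cast; ring
      _ ≤ _ := by linarith
  by_cases hcase : x ^ (1 / 20 : ℝ) < n
  · obtain ⟨hn2, hlog⟩ := log_n_ge hx hcase
    have hln : 0 < Real.log n := by linarith
    have hφ : (0:ℝ) < r.totient := by exact_mod_cast Nat.totient_pos.2 hr
    -- split
    have hR : ∀ b : ℤ, ∃ R : ℝ, Sc n vmr r s b = (∑ m ∈ Icc 1 n, (if (r : ℤ) ∣ (m : ℤ) - b then vmr m else 0)) - R ∧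
        0 ≤ R ∧ R ≤ (s.divisors.card : ℝ) * Real.log n := by
      intro b
      refine ⟨∑ m ∈ Icc 1 n, (if (r : ℤ) ∣ (m : ℤ) - b ∧ ¬ Nat.Coprime m s then vmr m else 0), ?_, ?_, ?_⟩
      · unfold Sc
        rw [eq_sub_iff_add_eq, ← Finset.sum_add_distrib]
        apply Finset.sum_congr rfl
        intro m _
        by_cases h1 : (r : ℤ) ∣ (m : ℤ) - b <;> by_cases h2 : Nat.Coprime m s <;> simp [h1, h2]
      · apply Finset.sum_nonneg
        intro m _
        split_ifs
        · exact ArithmeticFunction.vonMangoldt_nonneg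
        · exact le_rfl
      · refine le_trans ?_ (vm_noncop_sum n s (by omega) hs)
        apply Finset.sum_le_sum
        intro m _
        have hv : 0 ≤ vmr m := ArithmeticFunction.vonMangoldt_nonneg
        by_cases h2 : Nat.Coprime m s
        · rw [if_neg (fun h => h.2 h2), if_pos h2]
        · rw [if_neg h2]
          split_ifs
          · exact le_rfl
          · exact hv
    obtain ⟨R, hR1, hR2, hR3⟩ := hR b
    obtain ⟨R', hR1', hR2', hR3'⟩ := hR b'
    have h1 := hC j n (by exact_mod_cast hn2) r b hr hb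
    have h1' := hC j n (by exact_mod_cast hn2) r b' hr hb'
    rw [Nat.floor_natCast] at h1 h1'
    set T := ∑ m ∈ Icc 1 n, (if (r : ℤ) ∣ (m : ℤ) - b then vmr m else 0) with hT
    set T' := ∑ m ∈ Icc 1 n, (if (r : ℤ) ∣ (m : ℤ) - b' then vmr m else 0) with hT'
    have h2 : |T - n / (r.totient : ℝ)| ≤ C j * n / Real.log n ^ j := h1
    have h2' : |T' - n / (r.totient : ℝ)| ≤ C j * n / Real.log n ^ j := h1'
    have h3 : C j * n / Real.log n ^ j ≤ 4 * |C j| * 20 ^ j * (s.divisors.card : ℝ) * N / Real.log x ^ j := by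
      calc C j * n / Real.log n ^ j ≤ |C j| * (4 * N) / (Real.log x / 20) ^ j := by
            gcongr
            · exact le_abs_self _
            · linarith
        _ = 1 * (4 * |C j| * 20 ^ j * N / Real.log x ^ j) := by rw [div_pow]; field_simp
        _ ≤ (s.divisors.card : ℝ) * (4 * |C j| * 20 ^ j * N / Real.log x ^ j) := by
            gcongr
        _ = _ := by ring
    have h4 : (s.divisors.card : ℝ) * Real.log n ≤ 20 * cc (j + 1) * (s.divisors.card : ℝ) * N / Real.log x ^ j := by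
      calc (s.divisors.card : ℝ) * Real.log n ≤ (s.divisors.card : ℝ) * (5 * Real.log x * x ^ (1 / 20 : ℝ)) := by
            gcongr
            calc Real.log n ≤ 5 * Real.log x := hlog5
              _ ≤ 5 * Real.log x * x ^ (1 / 20 : ℝ) := le_mul_of_one_le_right (by positivity) hx20
        _ ≤ (s.divisors.card : ℝ) * (5 * Real.log x * (4 * cc (j + 1) * N / Real.log x ^ (j + 1))) := by
            gcongr
        _ = _ := by rw [pow_succ]; field_simp; ring
    rw [hR1, hR1']
    rw [abs_le] at h2 h2' ⊢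
    have e1 : 2 * (4 * |C j| * 20 ^ j) * (s.divisors.card : ℝ) * N / Real.log x ^ j
        + 40 * cc (j + 1) * (s.divisors.card : ℝ) * N / Real.log x ^ j
        + 2 * (4 * cc (j + 1)) * (s.divisors.card : ℝ) * N / Real.log x ^ j
        = (2 * (4 * |C j| * 20 ^ j) + 40 * cc (j + 1) + 2 * (4 * cc (j + 1))) * (s.divisors.card : ℝ) * N / Real.log x ^ j := by
      ring
    have e2 : 0 ≤ 2 * (4 * cc (j + 1)) * (s.divisors.card : ℝ) * N / Real.log x ^ j := by positivity
    have e3 : 2 * (4 * |C j| * 20 ^ j) * (s.divisors.card : ℝ) * N / Real.log x ^ j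
        = 2 * (4 * |C j| * 20 ^ j * (s.divisors.card : ℝ) * N / Real.log x ^ j) := by ring
    have e4 : 40 * cc (j + 1) * (s.divisors.card : ℝ) * N / Real.log x ^ j
        = 2 * (20 * cc (j + 1) * (s.divisors.card : ℝ) * N / Real.log x ^ j) := by ring
    have e5 : 0 ≤ 20 * cc (j + 1) * (s.divisors.card : ℝ) * N / Real.log x ^ j := by positivity
    rw [← e1, e3, e4]
    constructor <;> linarith
  · push Not at hcase
    have key : ∀ b : ℤ, |Sc n vmr r s b| ≤ 4 * cc (j + 1) * (s.divisors.card : ℝ) * N / Real.log x ^ j := by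
      intro b
      have hlx : ∀ m ∈ Icc 1 n, |vmr m| ≤ Real.log x := by
        intro m hm
        rw [Finset.mem_Icc] at hm
        have h1 : (0:ℝ) < m := by exact_mod_cast hm.1
        rw [abs_of_nonneg (show 0 ≤ vmr m from ArithmeticFunction.vonMangoldt_nonneg)]
        refine (show vmr m ≤ Real.log m from ArithmeticFunction.vonMangoldt_le_log).trans ?_
        apply Real.log_le_log h1
        have h2 : (m:ℝ) ≤ n := by exact_mod_cast hm.2
        have h3 : x ^ (1 / 20 : ℝ) ≤ x ^ (1:ℝ) := Real.rpow_le_rpow_of_exponent_le (by linarith) (by norm_num)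
        rw [Real.rpow_one] at h3
        linarith
      have h1 := Sc_abs_le n vmr (Real.log x) hL.le hlx r s b
      calc |Sc n vmr r s b| ≤ n * Real.log x := h1
        _ ≤ x ^ (1 / 20 : ℝ) * Real.log x := by gcongr
        _ ≤ (4 * cc (j + 1) * N / Real.log x ^ (j + 1)) * Real.log x := by gcongr
        _ = 1 * (4 * cc (j + 1) * N / Real.log x ^ j) := by rw [pow_succ]; field_simp
        _ ≤ (s.divisors.card : ℝ) * (4 * cc (j + 1) * N / Real.log x ^ j) := by gcongr
        _ = _ := by ring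
    have hX : 0 ≤ (2 * (4 * |C j| * 20 ^ j) + 40 * cc (j + 1)) * (s.divisors.card : ℝ) * N / Real.log x ^ j := by positivity
    calc |Sc n vmr r s b - Sc n vmr r s b'| ≤ |Sc n vmr r s b| + |Sc n vmr r s b'| := abs_sub _ _
      _ ≤ _ := add_le_add (key b) (key b')
      _ ≤ (2 * (4 * |C j| * 20 ^ j) + 40 * cc (j + 1)) * (s.divisors.card : ℝ) * N / Real.log x ^ j
          + (4 * cc (j + 1) * (s.divisors.card : ℝ) * N / Real.log x ^ j
          + 4 * cc (j + 1) * (s.divisors.card : ℝ) * N / Real.log x ^ j) := le_add_of_nonneg_left hX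
      _ = _ := by ring

end Pool.Agent.BGG
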