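import Pool.Agent.BGG.GCrt

/-!
Section 7: from vectors of moduli to one integer `a`.
-/

namespace Pool.Agent.BGG

open Finset

lemma vec_prod_ne_zero {k : ℕ} {h : Fin k → ℕ} {m : Fin k} {W : ℕ} {q : Fin k → ℕ}
    (hq : VecOK h m W q) : ∏ i, q i ≠ 0 :=
  Finset.prod_ne_zero_iff.2 (fun i _ => (hq.sqf i).ne_zero)

lemma vec_primeFactors {k : ℕ} {h : Fin k → ℕ} {m : Fin k} {W : ℕ} {q : Fin k → ℕ}
    (hq : VecOK h m W q) (p : ℕ) :
    p ∈ (∏ i, q i).primeFactors ↔ p.Prime ∧ ∃ i, p ∣ q i := by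
  rw [Nat.mem_primeFactors]
  constructor
  · rintro ⟨h1, h2, _⟩
    refine ⟨h1, ?_⟩
    obtain ⟨i, _, hi⟩ := (h1.prime.dvd_finsetProd_iff _).1 h2
    exact ⟨i, hi⟩
  · rintro ⟨h1, i, hi⟩
    exact ⟨h1, hi.trans (Finset.dvd_prod_of_mem q (Finset.mem_univ i)), vec_prod_ne_zero hq⟩

/-- step (1)+(2): a single integer `a` carries the whole sum -/
lemma vec_le {k : ℕ} (h : Fin k → ℕ) (m : Fin k) (W : ℕ) (hW : 1 ≤ W) (b : ℤ)
    (hb : IsCoprime b (W : ℤ)) (B : ℕ) (hB : 1 ≤ B) (y z : ℝ) (Q : Finset (Fin k → ℕ))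
    (hQ : ∀ q ∈ Q, VecOK h m W q) :
    ∃ a : ℤ, ∑ q ∈ Q, (B : ℝ) ^ (∏ i, q i).primeFactors.card * |VecErr h m W b y z q|
      ≤ ∑ r ∈ Q.image (fun q => W * ∏ i, q i),
          (if IsCoprime a (r : ℤ) then ((B * k : ℕ) : ℝ) ^ r.primeFactors.card * |LamErr y z r a| else 0) := by
  classical
  have hk : 1 ≤ k := by have := m.2; omega
  haveI : NeZero k := ⟨by omega⟩
  -- colour of a prime for a vector
  let as : (Fin k → ℕ) → ℕ → Fin k := fun q p => if hp : ∃ i, p ∣ q i then hp.choose else 0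
  have has : ∀ q ∈ Q, ∀ p : ℕ, p.Prime → ∀ i, p ∣ q i → as q p = i := by
    intro q hq p hp i hi
    have hex : ∃ i, p ∣ q i := ⟨i, hi⟩
    simp only [as, dif_pos hex]
    by_contra hne
    have := (hQ q hq).cop _ _ hne
    have h1 := Nat.dvd_gcd hex.choose_spec hi
    rw [this] at h1
    exact hp.one_lt.ne' (Nat.dvd_one.1 h1)
  let P : Finset ℕ := Q.biUnion (fun q => (∏ i, q i).primeFactors)
  obtain ⟨c, hc⟩ := col_avg P hk Q (fun q => (∏ i, q i).primeFactors) as
    (fun q => (B : ℝ) ^ (∏ i, q i).primeFactors.card * |VecErr h m W b y z q|)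
    (fun q hq => Finset.subset_biUnion_of_mem (fun q => (∏ i, q i).primeFactors) hq)
  obtain ⟨a, haW, haP⟩ := crt_exists W b (fun p => (h m : ℤ) - (h (c p) : ℤ)) P (by
    intro p hp
    obtain ⟨q, hq, hpq⟩ := Finset.mem_biUnion.1 hp
    obtain ⟨hpp, i, hi⟩ := (vec_primeFactors (hQ q hq) p).1 hpq
    exact ⟨hpp, Nat.Coprime.coprime_dvd_left hi ((hQ q hq).copW i)⟩)
  refine ⟨a, hc.trans ?_⟩
  rw [← Finset.sum_filter]
  set Q' := Q.filter (fun q => ∀ p ∈ (∏ i, q i).primeFactors, c p = as q p) with hQ'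
  have hcol : ∀ q ∈ Q', ∀ i, ∀ p : ℕ, p.Prime → p ∣ q i → c p = i := by
    intro q hq i p hp hpi
    rw [hQ', Finset.mem_filter] at hq
    rw [hq.2 p ((vec_primeFactors (hQ q hq.1) p).2 ⟨hp, i, hpi⟩)]
    exact has q hq.1 p hp i hpi
  have hrep : ∀ q ∈ Q', Rep h m W b q a := by
    intro q hq
    have hqQ := (Finset.mem_filter.1 hq).1
    refine ⟨haW, fun i hi => ?_⟩
    apply sqf_dvd_int ((hQ q hqQ).sqf i)
    intro p hp hpi
    have hpP : p ∈ P := Finset.mem_biUnion.2 ⟨q, hqQ, (vec_primeFactors (hQ q hqQ) p).2 ⟨hp, i, hpi⟩⟩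
    have := haP p hpP
    rw [hcol q hq i p hp hpi] at this
    exact this
  have hinj : Set.InjOn (fun q : Fin k → ℕ => W * ∏ i, q i) (Q' : Set (Fin k → ℕ)) := by
    intro q hq q' hq' heq
    have heq' : ∏ i, q i = ∏ i, q' i := Nat.eq_of_mul_eq_mul_left (by omega) heq
    have hqm := Finset.mem_coe.1 hq
    have hqm' := Finset.mem_coe.1 hq'
    have hqQ := (Finset.mem_filter.1 hqm).1
    have hqQ' := (Finset.mem_filter.1 hqm').1
    funext i
    have key : ∀ (q q' : Fin k → ℕ), q ∈ Q' → q' ∈ Q' → ∏ i, q i = ∏ i, q' i → ∀ i, q i ∣ q' i := by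
      intro q q' hq hq' he i
      have hqQ := (Finset.mem_filter.1 hq).1
      have hqQ' := (Finset.mem_filter.1 hq').1
      rw [← Int.natCast_dvd_natCast]
      apply sqf_dvd_int ((hQ q hqQ).sqf i)
      intro p hp hpi
      have h1 : p ∈ (∏ i, q' i).primeFactors := by
        rw [← he]; exact (vec_primeFactors (hQ q hqQ) p).2 ⟨hp, i, hpi⟩
      obtain ⟨_, j, hj⟩ := (vec_primeFactors (hQ q' hqQ') p).1 h1
      have h2 := hcol q hq i p hp hpi
      have h3 := hcol q' hq' j p hp hj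
      have : i = j := by rw [← h2, h3]
      subst this
      exact Int.natCast_dvd_natCast.2 hj
    exact Nat.dvd_antisymm (key q q' hqm hqm' heq' i) (key q' q hqm' hqm heq'.symm i)
  have hBk : (1 : ℝ) ≤ ((B * k : ℕ) : ℝ) := by
    exact_mod_cast Nat.one_le_iff_ne_zero.2 (by positivity)
  calc ∑ q ∈ Q', (k : ℝ) ^ (∏ i, q i).primeFactors.card *
        ((B : ℝ) ^ (∏ i, q i).primeFactors.card * |VecErr h m W b y z q|)
      ≤ ∑ q ∈ Q', (if IsCoprime a ((W * ∏ i, q i : ℕ) : ℤ) then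
          ((B * k : ℕ) : ℝ) ^ (W * ∏ i, q i).primeFactors.card * |LamErr y z (W * ∏ i, q i) a| else 0) := by
        apply Finset.sum_le_sum
        intro q hq
        have hqQ := (Finset.mem_filter.1 hq).1
        rw [if_pos (rep_coprime hb (hQ q hqQ) (hrep q hq)), vecErr_eq (hQ q hqQ) (hrep q hq),
          ← mul_assoc, ← mul_pow]
        apply mul_le_mul_of_nonneg_right _ (abs_nonneg _)
        have h1 : (∏ i, q i).primeFactors.card ≤ (W * ∏ i, q i).primeFactors.card := by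
          apply Finset.card_le_card
          apply Nat.primeFactors_mono (dvd_mul_left _ _)
          exact mul_ne_zero (by omega) (vec_prod_ne_zero (hQ q hqQ))
        calc ((k : ℝ) * (B : ℝ)) ^ (∏ i, q i).primeFactors.card
            = ((B * k : ℕ) : ℝ) ^ (∏ i, q i).primeFactors.card := by push_cast; ring
          _ ≤ _ := pow_le_pow_right₀ hBk h1
    _ = ∑ r ∈ Q'.image (fun q => W * ∏ i, q i), (if IsCoprime a (r : ℤ) then
          ((B * k : ℕ) : ℝ) ^ r.primeFactors.card * |LamErr y z r a| else 0) := by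
        rw [Finset.sum_image (fun q hq q' hq' he => hinj (Finset.mem_coe.2 hq) (Finset.mem_coe.2 hq') he)]
    _ ≤ _ := by
        apply Finset.sum_le_sum_of_subset_of_nonneg
        · exact Finset.image_subset_image (Finset.filter_subset _ _)
        · intro r _ _
          split_ifs
          · positivity
          · exact le_rfl

end Pool.Agent.BGG
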